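import Pool.Agent.W_7d29a1_h18.HE
import Pool.Agent.W_7d29a1_F.Final
import Pool.Agent.W_7d29a1_G.Defs1

/-!
MP_7d29a1_pr, track G: hypothesis hE (the unit is larger than any multiple of `log n`) for the units `EU` and `EE`. (helper18)
-/

namespace Pool.Agent.W_7d29a1_h18

open MeasureTheory Filter Topology Pool.Agent.W_7d29a1_F Pool.Agent.W_7d29a1_h4g Pool.Agent.W_7d29a1_G

variable {μ : Measure ℝ} [IsProbabilityMeasure μ]

/-- The unit is larger than any multiple of `log n`. -/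
theorem EU_log (hμ : Pool.Agent.W_7d29a1_h47.EM μ) (hnd : Pool.Agent.W_7d29a1_h47.Nondeg μ) (s K : ℝ) :
    ∃ n0 : ℕ, ∀ (z : ℕ → ℤ), (∀ m, 0 ≤ z m ∧ z m ≤ m) → ∀ n : ℕ, n0 ≤ n → K * Real.log n ≤ EU μ s z n - 1 := by
  obtain ⟨n0, h0⟩ := cost_log hμ hnd (differentiable_Lam hμ hnd (s / 2)) K
  exact ⟨n0, fun z hz n hn => h0 n hn z _ (fun m _ => hz m) fun m hm => ref_le_EU hm⟩

/-- Hypothesis hE of `chain_loc`. -/
theorem EU_hE (hμ : Pool.Agent.W_7d29a1_h47.EM μ) (hnd : Pool.Agent.W_7d29a1_h47.Nondeg μ) (s K : ℝ) :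
    ∃ x0 : ℕ, ∀ (z : ℕ → ℤ), (∀ m, 0 ≤ z m ∧ z m ≤ m) → ∀ x : ℕ, x0 ≤ x → K * x ≤ EU μ s z (2 ^ x) := by
  obtain ⟨n0, h0⟩ := EU_log hμ hnd s (K / Real.log 2)
  refine ⟨n0, fun z hz x hx => ?_⟩
  have h1 := h0 z hz (2 ^ x) (hx.trans (Nat.lt_two_pow_self).le)
  have h2 : Real.log ((2 ^ x : ℕ) : ℝ) = x * Real.log 2 := by
    push_cast
    rw [Real.log_pow]
  have h3 := Real.log_pos one_lt_two
  have h4 : K / Real.log 2 * (x * Real.log 2) = K * x := by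
    field_simp
  rw [h2, h4] at h1
  linarith

/-- The unit (D1) is larger than any multiple of `log n`. -/
theorem EE_log (hμ : Pool.Agent.W_7d29a1_h47.EM μ) (hnd : Pool.Agent.W_7d29a1_h47.Nondeg μ) (K : ℝ) :
    ∃ n0 : ℕ, ∀ n : ℕ, n0 ≤ n → K * Real.log n ≤ EE μ n := by
  obtain ⟨n0, h0⟩ := EU_log hμ hnd 0 K
  refine ⟨n0, fun n hn => ?_⟩
  have h1 := h0 md (fun m => ⟨md_nonneg m, md_le m⟩) n hn
  unfold EE
  linarith

/-- `E / log n → ∞`. -/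
theorem EE_div_log (hμ : Pool.Agent.W_7d29a1_h47.EM μ) (hnd : Pool.Agent.W_7d29a1_h47.Nondeg μ) :
    Tendsto (fun n : ℕ => EE μ n / Real.log n) atTop atTop := by
  rw [tendsto_atTop]
  intro K
  obtain ⟨n0, h0⟩ := EE_log hμ hnd K
  filter_upwards [eventually_ge_atTop n0, eventually_ge_atTop 2] with n h1 h2
  have h3 : 0 < Real.log n := Real.log_pos (by exact_mod_cast h2)
  rw [le_div_iff₀ h3]
  exact h0 n h1

/-- The unit tends to infinity. -/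
theorem EE_tendsto (hμ : Pool.Agent.W_7d29a1_h47.EM μ) (hnd : Pool.Agent.W_7d29a1_h47.Nondeg μ) :
    Tendsto (EE μ) atTop atTop := by
  obtain ⟨n0, h0⟩ := EE_log hμ hnd 1
  have h1 : Tendsto (fun n : ℕ => Real.log (n : ℝ)) atTop atTop :=
    Real.tendsto_log_atTop.comp tendsto_natCast_atTop_atTop
  refine tendsto_atTop_mono' atTop ?_ h1
  filter_upwards [eventually_ge_atTop n0] with n hn
  have := h0 n hn
  linarith

/-- Hypothesis hE of `chain_loc` for `g = gg μ`. -/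
theorem gg_hE (hμ : Pool.Agent.W_7d29a1_h47.EM μ) (hnd : Pool.Agent.W_7d29a1_h47.Nondeg μ) (K : ℝ) :
    ∃ x0 : ℕ, ∀ x : ℕ, x0 ≤ x → K * x ≤ (2 : ℝ) ^ gg μ x := by
  obtain ⟨x0, h0⟩ := EU_hE hμ hnd 0 K
  refine ⟨x0, fun x hx => ?_⟩
  have h1 := h0 md (fun m => ⟨md_nonneg m, md_le m⟩) x hx
  have h2 : 0 < EE μ (2 ^ x) := lt_of_lt_of_le one_pos (one_le_EU (μ := μ) (s := 0) (z := md) (2 ^ x))
  unfold gg
  rw [Real.rpow_logb (by norm_num) (by norm_num) h2]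
  exact h1

end Pool.Agent.W_7d29a1_h18
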