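import Pool.Agent.W_7d29a1_h18.PlE

/-!
MP_7d29a1_pr, track G, hypothesis hE: the unit of cost is larger than any multiple of the logarithm of the time. (helper18)
-/

namespace Pool.Agent.W_7d29a1_h18

open MeasureTheory ProbabilityTheory Filter Topology Pool.Agent.W_7d29a1_F Pool.Agent.W_7d29a1_h60

noncomputable section

variable {μ : Measure ℝ} [IsProbabilityMeasure μ] {s : ℝ}

/-- The mean of the luck is at least minus the cost of a reference displacement. -/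
lemma mean_V_ge (hμ : Pool.Agent.W_7d29a1_h47.EM μ) {m : ℕ} {z : ℤ} (h0 : 0 ≤ z) (h1 : z ≤ m) {A : ℝ}
    (hX : ∫ η, max (X μ s η 0 m z) 0 ∂(law μ) ≤ A) : -A ≤ ∫ η, V μ s η 0 m ∂(law μ) := by
  have hXs := (Sub_X (μ := μ) (s := s) 0 h0 h1).max (Sub.const 0)
  have h3 : ∫ η, -max (X μ s η 0 m z) 0 ∂(law μ) ≤ ∫ η, V μ s η 0 m ∂(law μ) := by
    refine integral_mono (hXs.integrable hμ).neg ((Sub_V 0 _).integrable hμ) fun η => ?_
    have h4 := neg_X_le_V (μ := μ) (s := s) η 0 h0 h1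
    have h5 := le_max_left (X μ s η 0 m z) 0
    show -max (X μ s η 0 m z) 0 ≤ V μ s η 0 m
    linarith
  rw [integral_neg] at h3
  linarith

/-- hE: the mean positive cost of reference displacements up to the time `n` is larger than any multiple of `log n`. -/
theorem cost_log (hμ : Pool.Agent.W_7d29a1_h47.EM μ) (hnd : Pool.Agent.W_7d29a1_h47.Nondeg μ)
    (hd : DifferentiableAt ℝ (Pool.Agent.W_7d29a1_h47.Lam μ) (s / 2)) (K : ℝ) :
    ∃ n0 : ℕ, ∀ n : ℕ, n0 ≤ n → ∀ (z : ℕ → ℤ) (A : ℝ), (∀ m ≤ n, 0 ≤ z m ∧ z m ≤ m) →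
      (∀ m ≤ n, ∫ η, max (X μ s η 0 m (z m)) 0 ∂(law μ) ≤ A) → K * Real.log n ≤ A := by
  obtain ⟨K', hK'⟩ : ∃ K' : ℝ, K' = max K 1 := ⟨_, rfl⟩
  have hK1 : 1 ≤ K' := by rw [hK']; exact le_max_right _ _
  have hKK : K ≤ K' := by rw [hK']; exact le_max_left _ _
  have hK0 : 0 < K' := by linarith
  by_contra hcon
  push Not at hcon
  have hbad : ∀ N : ℕ, ∃ n : ℕ, N ≤ n ∧ 2 ≤ n ∧ ∃ (z : ℕ → ℤ) (A : ℝ), (∀ m ≤ n, 0 ≤ z m ∧ z m ≤ m) ∧
      (∀ m ≤ n, ∫ η, max (X μ s η 0 m (z m)) 0 ∂(law μ) ≤ A) ∧ A < K' * Real.log n := by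
    intro N
    obtain ⟨n, hn, z, A, h1, h2, h3⟩ := hcon (max N 2)
    have hn2 : 2 ≤ n := (le_max_right _ _).trans hn
    refine ⟨n, (le_max_left _ _).trans hn, hn2, z, A, h1, h2, lt_of_lt_of_le h3 ?_⟩
    exact mul_le_mul_of_nonneg_right hKK (Real.log_nonneg (by exact_mod_cast (by omega : 1 ≤ n)))
  obtain ⟨θ, hθ⟩ : ∃ θ : ℝ, θ = 1 / (56 * K') := ⟨_, rfl⟩
  have hθ0 : 0 < θ := by rw [hθ]; positivity
  have hθ1 : θ ≤ 1 := by
    rw [hθ, div_le_one (by positivity)]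
    linarith
  have hθK : θ * (7 * K') = 1 / 8 := by
    rw [hθ]
    field_simp
    norm_num
  -- a time with exponential growth
  obtain ⟨n1, hn1⟩ := MM_ge (s := s) hμ hnd hd (2 * K' / θ)
  obtain ⟨m', hm'1, hm'2, z', A', hz', hX', hA'⟩ := hbad n1
  obtain ⟨g, hg⟩ : ∃ g, g = MM μ s θ m' := ⟨_, rfl⟩
  have hg1 : 1 < g := by
    have h1 := hn1 m' hm'1 θ hθ0.le hθ1
    have h2 := mean_V_ge (s := s) hμ (hz' m' le_rfl).1 (hz' m' le_rfl).2 (hX' m' le_rfl)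
    have hlog : 0 < Real.log m' := Real.log_pos (by exact_mod_cast (by omega : 1 < m'))
    have h3 : θ ^ 2 * (2 * K' / θ * Real.log m') = 2 * (θ * (K' * Real.log m')) := by
      field_simp
    rw [h3, ← hg] at h1
    have h4 : -(θ * (K' * Real.log m')) ≤ θ * ∫ η, V μ s η 0 m' ∂(law μ) := by
      have := mul_le_mul_of_nonneg_left (hA'.le) hθ0.le
      have := mul_le_mul_of_nonneg_left h2 hθ0.le
      linarith
    have h5 : 0 < θ * (K' * Real.log m') := by positivity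
    have h6 : 0 < Real.log g := by linarith
    have hg0 : 0 < g := by rw [hg]; exact MM_pos hμ θ m'
    exact (Real.log_pos_iff hg0.le).1 h6
  have hm'0 : 0 < m' := by omega
  -- exponential against polynomial
  obtain ⟨k0, hk0⟩ : ∃ k0 : ℕ, ∀ k : ℕ, k0 ≤ k → 2 * (((k : ℝ) + 1) * m' + 1) ^ 4 < g ^ k := by
    have h1 := tendsto_pow_const_div_const_pow_of_one_lt 4 hg1
    have h2 : ∀ᶠ k : ℕ in atTop, (k : ℝ) ^ 4 / g ^ k < 1 / (32 * ((m' : ℝ) + 1) ^ 4) :=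
      h1.eventually_lt_const (by positivity)
    obtain ⟨k0, hk0⟩ := eventually_atTop.1 (h2.and (eventually_ge_atTop 1))
    refine ⟨k0, fun k hk => ?_⟩
    obtain ⟨h3, h4⟩ := hk0 k hk
    have hgk : 0 < g ^ k := by positivity
    rw [div_lt_div_iff₀ hgk (by positivity), one_mul] at h3
    refine lt_of_le_of_lt ?_ h3
    have hk1 : (1 : ℝ) ≤ k := by exact_mod_cast h4
    have hm0 : (0 : ℝ) ≤ m' := Nat.cast_nonneg _
    have h5 : ((k : ℝ) + 1) * m' + 1 ≤ 2 * k * (m' + 1) := by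
      have := mul_le_mul_of_nonneg_right hk1 hm0
      linarith
    have h6 : (((k : ℝ) + 1) * m' + 1) ^ 4 ≤ (2 * k * (m' + 1)) ^ 4 := pow_le_pow_left₀ (by positivity) h5 4
    calc 2 * (((k : ℝ) + 1) * m' + 1) ^ 4 ≤ 2 * (2 * k * (m' + 1)) ^ 4 := by linarith
      _ = (k : ℝ) ^ 4 * (32 * ((m' : ℝ) + 1) ^ 4) := by ring
  obtain ⟨M2, hM2⟩ : ∃ M2, M2 = MM μ s (2 * θ) 1 := ⟨_, rfl⟩
  have hM20 : 0 < M2 := by rw [hM2]; exact MM_pos hμ _ _
  obtain ⟨N2, hN2⟩ := exists_nat_ge ((1 + M2) ^ 4)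
  -- the bad time
  obtain ⟨n, hnN, hn2, z, A, hz, hX, hA⟩ := hbad (max N2 (((k0 * m' + 1) ^ 4) ^ 8))
  have hnN2 : (1 + M2) ^ 4 ≤ (n : ℝ) := hN2.trans (by exact_mod_cast (le_max_left _ _).trans hnN)
  have hnk0 : ((k0 * m' + 1) ^ 4) ^ 8 ≤ n := (le_max_right _ _).trans hnN
  have hn0 : (0 : ℝ) < n := by exact_mod_cast (by omega : 0 < n)
  have hlog : 0 < Real.log n := Real.log_pos (by exact_mod_cast (by omega : 1 < n))
  have hex : ∃ k : ℕ, n < (((k + 1) * m' + 1) ^ 4) ^ 8 := by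
    refine ⟨n, ?_⟩
    have h1 : n + 1 ≤ (n + 1) * m' + 1 := (Nat.le_mul_of_pos_right (n + 1) hm'0).trans (Nat.le_succ _)
    calc n < n + 1 := Nat.lt_succ_self n
      _ ≤ (n + 1) * m' + 1 := h1
      _ ≤ ((n + 1) * m' + 1) ^ 4 := Nat.le_self_pow (by norm_num) _
      _ ≤ (((n + 1) * m' + 1) ^ 4) ^ 8 := Nat.le_self_pow (by norm_num) _
  classical
  obtain ⟨k, hk1, hk2⟩ : ∃ k : ℕ, n < (((k + 1) * m' + 1) ^ 4) ^ 8 ∧ ((k * m' + 1) ^ 4) ^ 8 ≤ n := by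
    refine ⟨Nat.find hex, Nat.find_spec hex, ?_⟩
    rcases Nat.eq_zero_or_pos (Nat.find hex) with h0 | h0
    · rw [h0]
      have : ((0 * m' + 1) ^ 4) ^ 8 = 1 := by rw [Nat.zero_mul, Nat.zero_add, one_pow, one_pow]
      rw [this]
      omega
    · have h1 := Nat.find_min hex (show Nat.find hex - 1 < Nat.find hex by omega)
      rw [not_lt] at h1
      have h2 : Nat.find hex - 1 + 1 = Nat.find hex := by omega
      rw [h2] at h1
      exact h1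
  have hkk0 : k0 ≤ k := by
    by_contra hlt
    rw [not_le] at hlt
    have h1 : (k + 1) * m' + 1 ≤ k0 * m' + 1 := by
      have : (k + 1) * m' ≤ k0 * m' := Nat.mul_le_mul_right m' hlt
      omega
    have h2 : (((k + 1) * m' + 1) ^ 4) ^ 8 ≤ ((k0 * m' + 1) ^ 4) ^ 8 := Nat.pow_le_pow_left (Nat.pow_le_pow_left h1 4) 8
    exact absurd (lt_of_lt_of_le hk1 (h2.trans hnk0)) (lt_irrefl n)
  obtain ⟨w, hw⟩ : ∃ w, w = Real.exp (Real.log n / 8) := ⟨_, rfl⟩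
  have hw0 : 0 < w := by rw [hw]; exact Real.exp_pos _
  have hw8 : w ^ 8 = n := by
    rw [hw, ← Real.exp_nat_mul]
    have : ((8 : ℕ) : ℝ) * (Real.log n / 8) = Real.log n := by
      push_cast
      ring
    rw [this, Real.exp_log hn0]
  obtain ⟨m, hm⟩ : ∃ m, m = k * m' := ⟨_, rfl⟩
  have hmw : ((m : ℝ) + 1) ^ 4 ≤ w := by
    have h1 : (((m : ℝ) + 1) ^ 4) ^ 8 ≤ w ^ 8 := by
      rw [hw8]
      have h3 : ((((k * m' + 1) ^ 4) ^ 8 : ℕ) : ℝ) ≤ (n : ℝ) := Nat.cast_le.2 hk2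
      rw [Nat.cast_pow, Nat.cast_pow, Nat.cast_add, Nat.cast_one, ← hm] at h3
      exact h3
    exact (pow_le_pow_iff_left₀ (by positivity) hw0.le (by norm_num)).1 h1
  have hwk : w ≤ (((k : ℝ) + 1) * m' + 1) ^ 4 := by
    have h1 : w ^ 8 ≤ ((((k : ℝ) + 1) * m' + 1) ^ 4) ^ 8 := by
      rw [hw8]
      have h3 : (n : ℝ) ≤ (((((k + 1) * m' + 1) ^ 4) ^ 8 : ℕ) : ℝ) := Nat.cast_le.2 hk1.le
      rw [Nat.cast_pow, Nat.cast_pow, Nat.cast_add, Nat.cast_one, Nat.cast_mul, Nat.cast_add, Nat.cast_one] at h3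
      exact h3
    exact (pow_le_pow_iff_left₀ hw0.le (by positivity) (by norm_num)).1 h1
  obtain ⟨Y, hY⟩ : ∃ Y, Y = 7 * K' * Real.log n := ⟨_, rfl⟩
  have hY0 : 0 < Y := by rw [hY]; positivity
  have hθY : Real.exp (θ * Y) = w := by
    rw [hY, hw]
    congr 1
    calc θ * (7 * K' * Real.log n) = θ * (7 * K') * Real.log n := by ring
      _ = Real.log n / 8 := by rw [hθK]; ring
  obtain ⟨δ, hδ⟩ : ∃ δ, δ = 1 / w ^ 4 := ⟨_, rfl⟩
  have hδ0 : 0 < δ := by rw [hδ]; positivity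
  have hδ2 : δ ^ 2 = 1 / n := by
    rw [hδ, div_pow, one_pow, ← pow_mul, hw8]
  have h6A : 6 * A < Y := by
    rw [hY]
    have : 0 < K' * Real.log n := by positivity
    linarith
  have hp : ∀ j, 1 ≤ j → j ≤ m → ∫ η, io (Y ≤ V μ s η 0 j) ∂(law μ) ≤ j * δ ^ 2 := by
    intro j _ _
    rw [hδ2]
    rcases luck_rare hμ s j n z hz hX h6A with h1 | h1
    · rw [mul_one_div, le_div_iff₀ hn0]
      linarith
    · rw [h1]
      positivity
  have hsmall : Real.exp (θ * Y) * ((m + 1) ^ 3 * (δ / 2 * (m + MM μ s (2 * θ) 1))) ≤ 1 / 2 := by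
    rw [hθY, ← hM2]
    have hm0 : (0 : ℝ) ≤ m := Nat.cast_nonneg m
    have h1 : (m : ℝ) + M2 ≤ (m + 1) * (1 + M2) := by
      have := mul_nonneg hm0 hM20.le
      linarith
    have h2 : w * (((m : ℝ) + 1) ^ 3 * (δ / 2 * (m + M2))) ≤ w * (((m : ℝ) + 1) ^ 3 * (δ / 2 * ((m + 1) * (1 + M2)))) := by
      gcongr
    have h3 : w * (((m : ℝ) + 1) ^ 3 * (δ / 2 * ((m + 1) * (1 + M2)))) = w * (δ / 2 * (1 + M2)) * ((m : ℝ) + 1) ^ 4 := by
      ring
    have h4 : w * (δ / 2 * (1 + M2)) * ((m : ℝ) + 1) ^ 4 ≤ w * (δ / 2 * (1 + M2)) * w :=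
      mul_le_mul_of_nonneg_left hmw (by positivity)
    have h5 : w * (δ / 2 * (1 + M2)) * w = (1 + M2) / (2 * w ^ 2) := by
      rw [hδ]
      field_simp
    have h6 : 1 + M2 ≤ w ^ 2 := by
      have h7 : (1 + M2) ^ 4 ≤ (w ^ 2) ^ 4 := by
        rw [← pow_mul]
        rw [hw8]
        exact hnN2
      exact (pow_le_pow_iff_left₀ (by positivity) (by positivity) (by norm_num)).1 h7
    have h7 : (1 + M2) / (2 * w ^ 2) ≤ 1 / 2 := by
      rw [div_le_div_iff₀ (by positivity) (by norm_num)]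
      linarith
    linarith
  have hfin := restart_log (μ := μ) (s := s) hμ hθ0.le hY0 hδ0 hp hsmall (i := m) le_rfl
  rw [hθY] at hfin
  have h1 := MM_mul (s := s) hμ hθ0.le hθ1 m' k
  rw [← hg, ← hm] at h1
  have h2 := hk0 k hkk0
  linarith

end

end Pool.Agent.W_7d29a1_h18
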