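import Pool.Agent.W_7d29a1_h42.LuckKey

/-!
Planting (MP_7d29a1_pr, track G, hypothesis hE): a function `F` of independent variables which has the properties of a free
energy has exponential moments at least `exp (θ E F + c θ ^ 2 * ∑ (E g i) ^ 2)`. (helper18)
-/

namespace Pool.Agent.W_7d29a1_h18

open MeasureTheory Set Pool.Agent.W_7d29a1_h42

noncomputable section

variable {ν : Measure ℝ} [IsProbabilityMeasure ν]

/-- The density of the planted law. -/
def DD (xm xp ρ : ℝ) {N : ℕ} (u y : Fin N → ℝ) : ℝ := ∏ i, rr xm xp (u i) ρ (y i)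

lemma DD_cn (xm xp ρ : ℝ) {N : ℕ} (u : Fin (N + 1) → ℝ) (y : ℝ) (z : Fin N → ℝ) :
    DD xm xp ρ u (cn y z) = rr xm xp (u 0) ρ y * DD xm xp ρ (fun i => u i.succ) z := by
  unfold DD
  rw [Fin.prod_univ_succ]
  simp only [cn_zero, cn_succ]

lemma DD_meas (xm xp ρ : ℝ) {N : ℕ} (u : Fin N → ℝ) : Measurable (DD xm xp ρ u) := by
  unfold DD
  exact Finset.measurable_prod _ fun i _ => (rr_meas xm xp (u i) ρ).comp (measurable_pi_apply i)

lemma rr_ge {xm xp ρ u : ℝ} (hx : xm < xp) (hρ : 0 ≤ ρ) (hu0 : 0 ≤ u) (hu1 : u ≤ 1 / 2) (y : ℝ) :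
    1 / 2 ≤ rr xm xp u ρ y := by
  have h2 : 0 ≤ ρ * u := mul_nonneg hρ hu0
  rcases rr_cases (u := u) (ρ := ρ) hx y with h | h | h <;> rw [h] <;> linarith

lemma rr_le {xm xp ρ u : ℝ} (hx : xm < xp) (hρ : 0 ≤ ρ) (hu0 : 0 ≤ u) (hu1 : u ≤ 1 / 2) (y : ℝ) :
    rr xm xp u ρ y ≤ 1 + ρ := by
  have h2 : ρ * u ≤ ρ * 1 := mul_le_mul_of_nonneg_left (by linarith) hρ
  rcases rr_cases (u := u) (ρ := ρ) hx y with h | h | h <;> rw [h] <;> linarith

lemma DD_pos {xm xp ρ : ℝ} (hx : xm < xp) (hρ : 0 ≤ ρ) {N : ℕ} {u : Fin N → ℝ} (hu0 : ∀ i, 0 ≤ u i)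
    (hu1 : ∀ i, u i ≤ 1 / 2) (y : Fin N → ℝ) : 0 < DD xm xp ρ u y := by
  unfold DD
  exact Finset.prod_pos fun i _ => lt_of_lt_of_le (by norm_num) (rr_ge hx hρ (hu0 i) (hu1 i) (y i))

lemma DD_le {xm xp ρ : ℝ} (hx : xm < xp) (hρ : 0 ≤ ρ) {N : ℕ} {u : Fin N → ℝ} (hu0 : ∀ i, 0 ≤ u i)
    (hu1 : ∀ i, u i ≤ 1 / 2) (y : Fin N → ℝ) : DD xm xp ρ u y ≤ (1 + ρ) ^ N := by
  unfold DD
  calc ∏ i, rr xm xp (u i) ρ (y i) ≤ ∏ _i : Fin N, (1 + ρ) :=
        Finset.prod_le_prod (fun i _ => (show (0 : ℝ) ≤ 1 / 2 by norm_num).trans (rr_ge hx hρ (hu0 i) (hu1 i) (y i)))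
          fun i _ => rr_le hx hρ (hu0 i) (hu1 i) (y i)
    _ = (1 + ρ) ^ N := by simp

lemma DD_LG {xm xp ρ : ℝ} (hx : xm < xp) (hρ : 0 ≤ ρ) {N : ℕ} {u : Fin N → ℝ} (hu0 : ∀ i, 0 ≤ u i)
    (hu1 : ∀ i, u i ≤ 1 / 2) {F : (Fin N → ℝ) → ℝ} (hF : LG N F) : LG N fun y => DD xm xp ρ u y * F y :=
  LG.mul_bdd hF (DD_meas xm xp ρ u) (B := (1 + ρ) ^ N) fun y => by
    rw [abs_of_pos (DD_pos hx hρ hu0 hu1 y)]
    exact DD_le hx hρ hu0 hu1 y

/-- The mean of `F` under the planted law. -/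
theorem plant (hν : FM ν) {xm xp β c2 ρ : ℝ} (hx : xm < xp) (hq0 : 0 < ν.real (Ici xp))
    (hρ : ρ = ν.real (Iic xm) / ν.real (Ici xp)) (N : ℕ) :
    ∀ (Go Fp : (Fin N → ℝ) → ℝ) (g : Fin N → (Fin N → ℝ) → ℝ) (u : Fin N → ℝ), LG N Go → LG N Fp →
      GD ν xm β c2 N g → (∀ i, 0 ≤ u i) → (∀ i, u i ≤ 1 / 2) →
      (∀ x y, Go x + ∑ i, g i x * (y i - x i) ≤ Fp y) →
      ∫ x, Go x ∂(PN ν N) + (xp - xm) * c2 * ∑ i, u i * ∫ x, g i x ∂(PN ν N) ≤
        ∫ y, DD xm xp ρ u y * Fp y ∂(PN ν N) := by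
  have hρ0 : 0 ≤ ρ := by rw [hρ]; positivity
  induction N with
  | zero =>
    intro Go Fp g u hGo hFp hg hu0 hu1 h
    have h1 : ∀ x, Go x ≤ Fp x := fun x => by
      have := h x x
      simpa using this
    have h2 : ∀ y : Fin 0 → ℝ, DD xm xp ρ u y * Fp y = Fp y := fun y => by
      unfold DD
      simp
    simp only [h2, Finset.univ_eq_empty, Finset.sum_empty, mul_zero, add_zero]
    exact integral_mono (hGo.integrable hν) (hFp.integrable hν) h1
  | succ N ih =>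
    intro Go Fp g u hGo hFp hg hu0 hu1 h
    obtain ⟨a, ha⟩ : ∃ a, a = am ν g := ⟨_, rfl⟩
    obtain ⟨m, hm⟩ : ∃ m, m = ν.real (Iic xm) := ⟨_, rfl⟩
    obtain ⟨q, hq⟩ : ∃ q, q = ν.real (Ici xp) := ⟨_, rfl⟩
    rw [← hm, ← hq] at hρ
    rw [← hq] at hq0
    obtain ⟨u', hu'⟩ : ∃ u' : Fin N → ℝ, u' = fun i => u i.succ := ⟨_, rfl⟩
    have hu'0 : ∀ i, 0 ≤ u' i := fun i => by rw [hu']; exact hu0 _
    have hu'1 : ∀ i, u' i ≤ 1 / 2 := fun i => by rw [hu']; exact hu1 _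
    -- the functions
    obtain ⟨G0, hG0⟩ : ∃ G0 : ℝ → ℝ, G0 = fun x => ∫ z, Go (cn x z) ∂(PN ν N) := ⟨_, rfl⟩
    obtain ⟨G1, hG1⟩ : ∃ G1 : ℝ → ℝ, G1 = fun x => ∑ i, u' i * ∫ z, g i.succ (cn x z) ∂(PN ν N) := ⟨_, rfl⟩
    obtain ⟨G, hG⟩ : ∃ G : ℝ → ℝ, G = fun x => G0 x + (xp - xm) * c2 * G1 x := ⟨_, rfl⟩
    obtain ⟨γ, hγ⟩ : ∃ γ : ℝ → ℝ, γ = fun x => ∫ z, g 0 (cn x z) ∂(PN ν N) := ⟨_, rfl⟩
    obtain ⟨k, hk⟩ : ∃ k : ℝ → ℝ, k = fun y => ∫ z, DD xm xp ρ u' z * Fp (cn y z) ∂(PN ν N) := ⟨_, rfl⟩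
    have hG0int : Integrable G0 ν := by rw [hG0]; exact int_cn' (hGo.integrable hν)
    have hG1i : ∀ i : Fin N, Integrable (fun x => u' i * ∫ z, g i.succ (cn x z) ∂(PN ν N)) ν := fun i =>
      (int_cn' (hg.int i.succ)).const_mul (u' i)
    have hG1int : Integrable G1 ν := by
      rw [hG1]
      exact integrable_finsetSum _ fun i _ => hG1i i
    have hGint : Integrable G ν := by rw [hG]; exact hG0int.add (hG1int.const_mul _)
    have hγint : Integrable γ ν := by rw [hγ]; exact int_cn' (hg.int 0)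
    have hDF : LG (N + 1) fun y => (fun y : Fin (N + 1) → ℝ => ∏ i : Fin N, rr xm xp (u' i) ρ (y i.succ)) y * Fp y := by
      refine LG.mul_bdd hFp ?_ (B := (1 + ρ) ^ N) fun y => ?_
      · exact Finset.measurable_prod _ fun i _ => (rr_meas xm xp (u' i) ρ).comp (measurable_pi_apply i.succ)
      · have h1 := DD_pos hx hρ0 hu'0 hu'1 fun i => y i.succ
        have h2 := DD_le hx hρ0 hu'0 hu'1 fun i => y i.succ
        unfold DD at h1 h2
        rw [abs_of_pos h1]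
        exact h2
    have hkint : Integrable k ν := by
      rw [hk]
      exact int_cn' (hDF.integrable hν)
    have hγ0 : ∀ x, 0 ≤ γ x := fun x => by
      rw [hγ]
      exact integral_nonneg fun z => hg.nonneg _ _
    have hmain : ∀ x y, G x + γ x * (y - x) + 0 * ((0 : ℝ) - 0 * rr xm xp (u 0) ρ y) ≤ k y := by
      intro x y
      have hLG : LG N fun z => Go (cn x z) + g 0 (cn x z) * (y - x) := by
        refine (hGo.sec x).add ?_
        have h2 : LG N fun z => g 0 (cn x z) * (fun _ => y - x) z :=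
          LG.mul_bdd (LG.const N (y - x)) ((hg.meas 0).comp (measurable_cn_right x)) (B := β)
            (fun z => by
              rw [abs_of_nonneg (hg.nonneg _ _)]
              exact hg.le _ _)
        exact h2
      have h2 := ih (fun z => Go (cn x z) + g 0 (cn x z) * (y - x)) (fun z => Fp (cn y z)) (sg g x)
        u' hLG (hFp.sec y) (hg.sec x) hu'0 hu'1 (fun z z' => by
          have h3 := h (cn x z) (cn y z')
          rw [Fin.sum_univ_succ] at h3
          simp only [cn_zero, cn_succ] at h3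
          simp only [sg]
          linarith)
      have h3 : ∫ z, (Go (cn x z) + g 0 (cn x z) * (y - x)) ∂(PN ν N) = G0 x + γ x * (y - x) := by
        rw [integral_add ((hGo.sec x).integrable hν), integral_mul_const, hG0, hγ]
        refine Integrable.mul_const ?_ _
        refine (integrable_const β).mono' ((hg.meas 0).comp (measurable_cn_right x)).aestronglyMeasurable
          (Filter.Eventually.of_forall fun z => ?_)
        rw [Real.norm_eq_abs, abs_of_nonneg (hg.nonneg _ _)]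
        exact hg.le _ _
      rw [h3] at h2
      have h4 : G1 x = ∑ i, u' i * ∫ z, sg g x i z ∂(PN ν N) := by
        rw [hG1]
        rfl
      rw [← h4] at h2
      rw [hG, hk]
      show G0 x + (xp - xm) * c2 * G1 x + γ x * (y - x) + 0 * (0 - 0 * rr xm xp (u 0) ρ y) ≤ _
      linarith
    have hh : c2 * a ≤ ∫ x in Iic xm, γ x ∂ν := by
      have hmeas : Measurable fun p : ℝ × (Fin N → ℝ) => g 0 (cn p.1 p.2) :=
        (hg.meas 0).comp measurable_cn
      have hint : Integrable (fun p : ℝ × (Fin N → ℝ) => g 0 (cn p.1 p.2)) (ν.prod (PN ν N)) := by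
        refine (integrable_const β).mono' hmeas.aestronglyMeasurable
          (Filter.Eventually.of_forall fun p => ?_)
        rw [Real.norm_eq_abs, abs_of_nonneg (hg.nonneg _ _)]
        exact hg.le _ _
      have hint2 : Integrable (fun p : ℝ × (Fin N → ℝ) => g 0 (cn p.1 p.2))
          ((ν.restrict (Iic xm)).prod (PN ν N)) := by
        refine (integrable_const β).mono' hmeas.aestronglyMeasurable
          (Filter.Eventually.of_forall fun p => ?_)
        rw [Real.norm_eq_abs, abs_of_nonneg (hg.nonneg _ _)]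
        exact hg.le _ _
      have h2 : a = ∫ z, ∫ x, g 0 (cn x z) ∂ν ∂(PN ν N) := by
        rw [ha, am, int_cn (hg.int 0)]
        exact integral_integral_swap hint
      have h3 : ∫ x in Iic xm, γ x ∂ν = ∫ z, ∫ x in Iic xm, g 0 (cn x z) ∂ν ∂(PN ν N) := by
        rw [hγ]
        exact integral_integral_swap hint2
      rw [h2, h3, ← integral_const_mul]
      refine integral_mono (hint.integral_prod_right.const_mul c2) hint2.integral_prod_right fun z => ?_
      have h4 := hg.har 0 (cn 0 z)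
      simp only [update_cn_zero] at h4
      exact h4
    have hstep := one_step (ν := ν) (c2 := c2) (a := a) (cc := 0) (P := 0) (S := fun _ => (0 : ℝ)) hx hm hq hq0 hρ
      (hu0 0) (hu1 0) hGint hγint (integrable_const (0 : ℝ)) hkint hγ0 hmain hh
    have hr : ∫ y, rr xm xp (u 0) ρ y * k y ∂ν = ∫ y, DD xm xp ρ u y * Fp y ∂(PN ν (N + 1)) := by
      rw [int_cn ((DD_LG hx hρ0 hu0 hu1 hFp).integrable hν)]
      refine integral_congr_ae (Filter.Eventually.of_forall fun y => ?_)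
      show rr xm xp (u 0) ρ y * k y = ∫ z, DD xm xp ρ u (cn y z) * Fp (cn y z) ∂(PN ν N)
      rw [hk, ← integral_const_mul]
      refine integral_congr_ae (Filter.Eventually.of_forall fun z => ?_)
      show rr xm xp (u 0) ρ y * (DD xm xp ρ u' z * Fp (cn y z)) = DD xm xp ρ u (cn y z) * Fp (cn y z)
      rw [DD_cn, hu']
      ring
    rw [hr] at hstep
    refine le_trans (le_of_eq ?_) hstep
    have hGo' : ∫ x, Go x ∂(PN ν (N + 1)) = ∫ x, G0 x ∂ν := by
      rw [int_cn (hGo.integrable hν), hG0]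
    have hG1' : ∫ x, G1 x ∂ν = ∑ i, u' i * ∫ x, g i.succ x ∂(PN ν (N + 1)) := by
      rw [hG1, integral_finsetSum _ fun i _ => hG1i i]
      refine Finset.sum_congr rfl fun i _ => ?_
      rw [integral_const_mul, int_cn (hg.int i.succ)]
    simp only [mul_zero, add_zero, zero_mul, sub_zero]
    rw [Fin.sum_univ_succ, hGo', hG, integral_add hG0int (hG1int.const_mul _), integral_const_mul, hG1', hu', ha]
    unfold am
    ring

/-- The integral of the density of one site. -/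
lemma rr_int {xm xp u ρ m q : ℝ} (hm : m = ν.real (Iic xm)) (hq : q = ν.real (Ici xp))
    (hq0 : 0 < q) (hρ : ρ = m / q) : Integrable (rr xm xp u ρ) ν ∧ ∫ y, rr xm xp u ρ y ∂ν = 1 := by
  have hI1 : Integrable ((Iic xm).indicator fun _ => (1 : ℝ)) ν :=
    (integrable_const (1 : ℝ)).indicator measurableSet_Iic
  have hJ1 : Integrable ((Ici xp).indicator fun _ => (1 : ℝ)) ν :=
    (integrable_const (1 : ℝ)).indicator measurableSet_Ici
  have hrI : Integrable (fun y => 1 - u * (Iic xm).indicator (fun _ => (1 : ℝ)) y) ν :=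
    (integrable_const (1 : ℝ)).sub (hI1.const_mul u)
  refine ⟨hrI.add (hJ1.const_mul (ρ * u)), ?_⟩
  unfold rr
  rw [integral_add hrI (hJ1.const_mul (ρ * u)), integral_sub (integrable_const _) (hI1.const_mul u),
    integral_const_mul, integral_const_mul, integral_indicator measurableSet_Iic,
    integral_indicator measurableSet_Ici]
  simp only [integral_const, measureReal_restrict_apply_univ, smul_eq_mul, mul_one,
    probReal_univ]
  rw [← hm, ← hq, hρ]
  field_simp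
  ring

/-- The second moment of the density of one site. -/
lemma rr_sq {xm xp u ρ m q : ℝ} (hx : xm < xp) (hm : m = ν.real (Iic xm)) (hq : q = ν.real (Ici xp))
    (hq0 : 0 < q) (hρ : ρ = m / q) : Integrable (fun y => rr xm xp u ρ y * (rr xm xp u ρ y - 1)) ν ∧
      ∫ y, rr xm xp u ρ y * (rr xm xp u ρ y - 1) ∂ν = u ^ 2 * (m * (1 + ρ)) := by
  have hI1 : Integrable ((Iic xm).indicator fun _ => (1 : ℝ)) ν :=
    (integrable_const (1 : ℝ)).indicator measurableSet_Iic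
  have hJ1 : Integrable ((Ici xp).indicator fun _ => (1 : ℝ)) ν :=
    (integrable_const (1 : ℝ)).indicator measurableSet_Ici
  have e : ∀ y, rr xm xp u ρ y * (rr xm xp u ρ y - 1) =
      (u ^ 2 - u) * (Iic xm).indicator (fun _ => (1 : ℝ)) y + (ρ * u + ρ ^ 2 * u ^ 2) * (Ici xp).indicator (fun _ => (1 : ℝ)) y := by
    intro y
    by_cases hy : y ≤ xm
    · have hy' : ¬ xp ≤ y := by
        intro h
        linarith
      rw [rr_lo hx hy]
      simp only [mem_Iic, hy, indicator_of_mem, mem_Ici, hy', not_false_eq_true, indicator_of_notMem]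
      ring
    · by_cases hy' : xp ≤ y
      · rw [rr_hi hx hy']
        simp only [mem_Iic, hy, indicator_of_mem, mem_Ici, hy', not_false_eq_true, indicator_of_notMem]
        ring
      · rw [rr_mid hy hy']
        simp only [mem_Iic, hy, mem_Ici, hy', not_false_eq_true, indicator_of_notMem]
        ring
  have e' : (fun y => rr xm xp u ρ y * (rr xm xp u ρ y - 1)) = fun y =>
      (u ^ 2 - u) * (Iic xm).indicator (fun _ => (1 : ℝ)) y +
        (ρ * u + ρ ^ 2 * u ^ 2) * (Ici xp).indicator (fun _ => (1 : ℝ)) y := funext e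
  rw [e']
  refine ⟨(hI1.const_mul _).add (hJ1.const_mul _), ?_⟩
  rw [integral_add (hI1.const_mul _) (hJ1.const_mul _), integral_const_mul, integral_const_mul,
    integral_indicator measurableSet_Iic, integral_indicator measurableSet_Ici]
  simp only [integral_const, measureReal_restrict_apply_univ, smul_eq_mul, mul_one]
  rw [← hm, ← hq, hρ]
  field_simp
  ring

/-- The planted law is a probability, and its entropy. -/
theorem DD_ent {xm xp ρ m q : ℝ} (hx : xm < xp) (hm : m = ν.real (Iic xm)) (hq : q = ν.real (Ici xp))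
    (hq0 : 0 < q) (hρ : ρ = m / q) (N : ℕ) : ∀ u : Fin N → ℝ, (∀ i, 0 ≤ u i) → (∀ i, u i ≤ 1 / 2) →
      Integrable (DD xm xp ρ u) (PN ν N) ∧ ∫ y, DD xm xp ρ u y ∂(PN ν N) = 1 ∧
      Integrable (fun y => DD xm xp ρ u y * Real.log (DD xm xp ρ u y)) (PN ν N) ∧
      ∫ y, DD xm xp ρ u y * Real.log (DD xm xp ρ u y) ∂(PN ν N) ≤ (m * (1 + ρ)) * ∑ i, u i ^ 2 := by
  have hm0 : 0 ≤ m := by rw [hm]; exact measureReal_nonneg
  have hρ0 : 0 ≤ ρ := by rw [hρ]; positivity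
  have hbdd : ∀ (N : ℕ) (u : Fin N → ℝ), (∀ i, 0 ≤ u i) → (∀ i, u i ≤ 1 / 2) →
      Integrable (DD xm xp ρ u) (PN ν N) ∧
      Integrable (fun y => DD xm xp ρ u y * Real.log (DD xm xp ρ u y)) (PN ν N) := by
    intro N u hu0 hu1
    have h1 : ∀ y, 0 < DD xm xp ρ u y := DD_pos hx hρ0 hu0 hu1
    have h2 : ∀ y, DD xm xp ρ u y ≤ (1 + ρ) ^ N := DD_le hx hρ0 hu0 hu1
    have h3 := DD_meas xm xp ρ u
    refine ⟨Integrable.of_bound (C := (1 + ρ) ^ N) h3.aestronglyMeasurable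
      (Filter.Eventually.of_forall fun y => ?_), Integrable.of_bound (C := 1 + ((1 + ρ) ^ N) ^ 2)
      (h3.mul (Real.measurable_log.comp h3)).aestronglyMeasurable (Filter.Eventually.of_forall fun y => ?_)⟩
    · rw [Real.norm_eq_abs, abs_of_pos (h1 y)]
      exact h2 y
    · have h4 := h1 y
      have h5 := h2 y
      have h6 : Real.log (DD xm xp ρ u y) ≤ DD xm xp ρ u y - 1 := Real.log_le_sub_one_of_pos h4
      have h7 : 1 - (DD xm xp ρ u y)⁻¹ ≤ Real.log (DD xm xp ρ u y) := Real.one_sub_inv_le_log_of_pos h4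
      have h8 : DD xm xp ρ u y * (1 - (DD xm xp ρ u y)⁻¹) = DD xm xp ρ u y - 1 := by
        rw [mul_sub, mul_one, mul_inv_cancel₀ h4.ne']
      have h9 := mul_le_mul_of_nonneg_left h7 h4.le
      have h10 := mul_le_mul_of_nonneg_left h6 h4.le
      rw [h8] at h9
      have h11 : DD xm xp ρ u y ^ 2 ≤ ((1 + ρ) ^ N) ^ 2 := pow_le_pow_left₀ h4.le h5 2
      rw [Real.norm_eq_abs, abs_le]
      constructor
      · nlinarith
      · nlinarith
  induction N with
  | zero =>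
    intro u hu0 hu1
    have h2 : ∀ y : Fin 0 → ℝ, DD xm xp ρ u y = 1 := fun y => by
      unfold DD
      simp
    refine ⟨(hbdd 0 u hu0 hu1).1, ?_, (hbdd 0 u hu0 hu1).2, ?_⟩
    · simp only [h2]
      simp
    · simp only [h2]
      simp
  | succ N ih =>
    intro u hu0 hu1
    obtain ⟨u', hu'⟩ : ∃ u' : Fin N → ℝ, u' = fun i => u i.succ := ⟨_, rfl⟩
    have hu'0 : ∀ i, 0 ≤ u' i := fun i => by rw [hu']; exact hu0 _
    have hu'1 : ∀ i, u' i ≤ 1 / 2 := fun i => by rw [hu']; exact hu1 _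
    obtain ⟨i1, i2, i3, i4⟩ := ih u' hu'0 hu'1
    obtain ⟨b1, b2⟩ := hbdd (N + 1) u hu0 hu1
    obtain ⟨r1, r2⟩ := rr_int (ν := ν) (u := u 0) hm hq hq0 hρ
    obtain ⟨s1, s2⟩ := rr_sq (ν := ν) (u := u 0) hx hm hq hq0 hρ
    refine ⟨b1, ?_, b2, ?_⟩
    · rw [int_cn b1]
      have e1 : ∀ y : ℝ, ∫ z, DD xm xp ρ u (cn y z) ∂(PN ν N) = rr xm xp (u 0) ρ y := by
        intro y
        simp only [DD_cn]
        rw [integral_const_mul, ← hu', i2, mul_one]
      simp only [e1]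
      exact r2
    · rw [int_cn b2]
      obtain ⟨H, hH⟩ : ∃ H, H = ∫ z, DD xm xp ρ u' z * Real.log (DD xm xp ρ u' z) ∂(PN ν N) := ⟨_, rfl⟩
      rw [← hH] at i4
      have e1 : ∀ y : ℝ, ∫ z, DD xm xp ρ u (cn y z) * Real.log (DD xm xp ρ u (cn y z)) ∂(PN ν N) =
          rr xm xp (u 0) ρ y * Real.log (rr xm xp (u 0) ρ y) + rr xm xp (u 0) ρ y * H := by
        intro y
        have hy : 0 < rr xm xp (u 0) ρ y := lt_of_lt_of_le (by norm_num) (rr_ge hx hρ0 (hu0 0) (hu1 0) y)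
        have e2 : ∀ z, DD xm xp ρ u (cn y z) * Real.log (DD xm xp ρ u (cn y z)) =
            (rr xm xp (u 0) ρ y * Real.log (rr xm xp (u 0) ρ y)) * DD xm xp ρ u' z +
              rr xm xp (u 0) ρ y * (DD xm xp ρ u' z * Real.log (DD xm xp ρ u' z)) := by
          intro z
          have hz : 0 < DD xm xp ρ u' z := DD_pos hx hρ0 hu'0 hu'1 z
          rw [DD_cn, ← hu', Real.log_mul hy.ne' hz.ne']
          ring
        simp only [e2]
        rw [integral_add (i1.const_mul _) (i3.const_mul _), integral_const_mul, integral_const_mul, i2, mul_one, ← hH]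
      simp only [e1]
      have hb : Integrable (fun y => rr xm xp (u 0) ρ y * Real.log (rr xm xp (u 0) ρ y) + rr xm xp (u 0) ρ y * H) ν := by
        have := int_cn' b2
        simp only [e1] at this
        exact this
      have h1 : ∫ y, (rr xm xp (u 0) ρ y * Real.log (rr xm xp (u 0) ρ y) + rr xm xp (u 0) ρ y * H) ∂ν ≤
          ∫ y, (rr xm xp (u 0) ρ y * (rr xm xp (u 0) ρ y - 1) + rr xm xp (u 0) ρ y * H) ∂ν := by
        refine integral_mono hb (s1.add (r1.mul_const H)) fun y => ?_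
        have hy : 0 < rr xm xp (u 0) ρ y := lt_of_lt_of_le (by norm_num) (rr_ge hx hρ0 (hu0 0) (hu1 0) y)
        have h2 := mul_le_mul_of_nonneg_left (Real.log_le_sub_one_of_pos hy) hy.le
        show _ + _ ≤ _ + _
        linarith
      rw [integral_add s1 (r1.mul_const H), s2, integral_mul_const, r2, one_mul] at h1
      rw [Fin.sum_univ_succ]
      rw [hu'] at i4
      nlinarith

/-- The variational inequality of Gibbs. -/
theorem gibbs {Ω : Type*} [MeasurableSpace Ω] {P : Measure Ω} {D H : Ω → ℝ} (hD : ∀ x, 0 < D x)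
    (i1 : Integrable D P) (e1 : ∫ x, D x ∂P = 1) (i2 : Integrable (fun x => D x * H x) P)
    (i3 : Integrable (fun x => D x * Real.log (D x)) P) (i4 : Integrable (fun x => Real.exp (H x)) P) :
    ∫ x, D x * H x ∂P - ∫ x, D x * Real.log (D x) ∂P ≤ Real.log (∫ x, Real.exp (H x) ∂P) := by
  obtain ⟨c, hc⟩ : ∃ c, c = ∫ x, D x * H x ∂P - ∫ x, D x * Real.log (D x) ∂P := ⟨_, rfl⟩
  rw [← hc]
  have i5 : Integrable (fun x => D x * H x - D x * Real.log (D x)) P := i2.sub i3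
  have h1 : ∫ x, Real.exp c * ((1 - c) * D x + (D x * H x - D x * Real.log (D x))) ∂P ≤
      ∫ x, Real.exp (H x) ∂P := by
    refine integral_mono (((i1.const_mul _).add i5).const_mul _) i4 fun x => ?_
    have h2 := Real.add_one_le_exp (H x - Real.log (D x) - c)
    have h3 : Real.exp (H x) = Real.exp c * (D x * Real.exp (H x - Real.log (D x) - c)) := by
      rw [← Real.exp_log (hD x), ← Real.exp_add, ← Real.exp_add, Real.exp_log (hD x)]
      congr 1
      ring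
    show Real.exp c * ((1 - c) * D x + (D x * H x - D x * Real.log (D x))) ≤ Real.exp (H x)
    rw [h3]
    refine mul_le_mul_of_nonneg_left ?_ (Real.exp_pos _).le
    have h4 := mul_le_mul_of_nonneg_left h2 (hD x).le
    linarith
  rw [integral_const_mul, integral_add (i1.const_mul _) i5, integral_const_mul, e1,
    integral_sub i2 i3, ← hc] at h1
  have h5 : Real.exp c * ((1 - c) * 1 + c) = Real.exp c := by ring
  rw [h5] at h1
  calc c = Real.log (Real.exp c) := (Real.log_exp c).symm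
    _ ≤ _ := Real.log_le_log (Real.exp_pos c) h1

/-- The lower bound for the exponential moments. -/
theorem expmom (hν : FM ν) {xm xp c2 : ℝ} (hx : xm < xp) (hq0 : 0 < ν.real (Ici xp)) (hc2 : 0 < c2) :
    ∃ c : ℝ, 0 < c ∧ ∀ (N : ℕ) (F : (Fin N → ℝ) → ℝ) (g : Fin N → (Fin N → ℝ) → ℝ), LG N F → GD ν xm 1 c2 N g →
      (∀ x y, F x + ∑ i, g i x * (y i - x i) ≤ F y) → ∀ θ : ℝ, 0 ≤ θ → θ ≤ 1 →
      Integrable (fun x => Real.exp (θ * F x)) (PN ν N) →
      θ * ∫ x, F x ∂(PN ν N) + c * θ ^ 2 * ∑ i, (∫ x, g i x ∂(PN ν N)) ^ 2 ≤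
        Real.log (∫ x, Real.exp (θ * F x) ∂(PN ν N)) := by
  obtain ⟨m, hm⟩ : ∃ m, m = ν.real (Iic xm) := ⟨_, rfl⟩
  obtain ⟨q, hq⟩ : ∃ q, q = ν.real (Ici xp) := ⟨_, rfl⟩
  obtain ⟨ρ, hρ⟩ : ∃ ρ, ρ = m / q := ⟨_, rfl⟩
  have hq0' : 0 < q := by rw [hq]; exact hq0
  have hm0 : 0 ≤ m := by rw [hm]; exact measureReal_nonneg
  have hρ0 : 0 ≤ ρ := by rw [hρ]; positivity
  obtain ⟨cp, hcp⟩ : ∃ cp, cp = (xp - xm) * c2 := ⟨_, rfl⟩
  have hcp0 : 0 < cp := by rw [hcp]; exact mul_pos (by linarith) hc2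
  obtain ⟨Cq, hCq⟩ : ∃ Cq, Cq = m * (1 + ρ) := ⟨_, rfl⟩
  have hCq0 : 0 ≤ Cq := by rw [hCq]; positivity
  obtain ⟨κ, hκ⟩ : ∃ κ, κ = min (1 / 2) (cp / (2 * (Cq + 1))) := ⟨_, rfl⟩
  have hκ0 : 0 < κ := by rw [hκ]; exact lt_min (by norm_num) (by positivity)
  have hκ1 : κ ≤ 1 / 2 := by rw [hκ]; exact min_le_left _ _
  have hκ2 : κ * Cq ≤ cp / 2 := by
    have h1 : κ ≤ cp / (2 * (Cq + 1)) := by rw [hκ]; exact min_le_right _ _
    rw [le_div_iff₀ (by positivity)] at h1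
    nlinarith
  refine ⟨κ * cp / 2, by positivity, fun N F g hF hg hconv θ hθ0 hθ1 hexp => ?_⟩
  obtain ⟨u, hu⟩ : ∃ u : Fin N → ℝ, u = fun i => κ * θ * ∫ x, g i x ∂(PN ν N) := ⟨_, rfl⟩
  have hgi0 : ∀ i, 0 ≤ ∫ x, g i x ∂(PN ν N) := fun i => integral_nonneg fun x => hg.nonneg i x
  have hgi1 : ∀ i, ∫ x, g i x ∂(PN ν N) ≤ 1 := fun i => by
    have h1 := integral_mono (hg.int i) (integrable_const (1 : ℝ)) fun x => hg.le i x
    simpa using h1
  have hu0 : ∀ i, 0 ≤ u i := fun i => by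
    rw [hu]
    exact mul_nonneg (mul_nonneg hκ0.le hθ0) (hgi0 i)
  have hu1 : ∀ i, u i ≤ 1 / 2 := fun i => by
    rw [hu]
    show κ * θ * ∫ x, g i x ∂(PN ν N) ≤ 1 / 2
    have h1 : κ * θ ≤ 1 / 2 := by nlinarith
    have h2 : 0 ≤ κ * θ := mul_nonneg hκ0.le hθ0
    have h3 := hgi0 i
    have h4 := hgi1 i
    nlinarith
  obtain ⟨d1, d2, d3, d4⟩ := DD_ent (ν := ν) hx hm hq hq0' hρ N u hu0 hu1
  have hρ' : ρ = ν.real (Iic xm) / ν.real (Ici xp) := by rw [hρ, hm, hq]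
  have hp := plant (ν := ν) hν hx hq0 hρ' N F F g u hF hF hg hu0 hu1 hconv
  have hDF : Integrable (fun y => DD xm xp ρ u y * F y) (PN ν N) := (DD_LG hx hρ0 hu0 hu1 hF).integrable hν
  have hDF' : Integrable (fun y => DD xm xp ρ u y * (θ * F y)) (PN ν N) := by
    refine (hDF.const_mul θ).congr (Filter.Eventually.of_forall fun y => ?_)
    show θ * (DD xm xp ρ u y * F y) = DD xm xp ρ u y * (θ * F y)
    ring
  have hG := gibbs (P := PN ν N) (D := DD xm xp ρ u) (H := fun y => θ * F y) (DD_pos hx hρ0 hu0 hu1) d1 d2 hDF' d3 hexp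
  have e1 : ∫ y, DD xm xp ρ u y * (θ * F y) ∂(PN ν N) = θ * ∫ y, DD xm xp ρ u y * F y ∂(PN ν N) := by
    rw [← integral_const_mul]
    refine integral_congr_ae (Filter.Eventually.of_forall fun y => ?_)
    show DD xm xp ρ u y * (θ * F y) = θ * (DD xm xp ρ u y * F y)
    ring
  rw [e1] at hG
  obtain ⟨Q, hQ⟩ : ∃ Q, Q = ∑ i, (∫ x, g i x ∂(PN ν N)) ^ 2 := ⟨_, rfl⟩
  have hQ0 : 0 ≤ Q := by rw [hQ]; exact Finset.sum_nonneg fun i _ => sq_nonneg _
  have e2 : ∑ i, u i * ∫ x, g i x ∂(PN ν N) = κ * θ * Q := by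
    rw [hu, hQ, Finset.mul_sum]
    refine Finset.sum_congr rfl fun i _ => ?_
    ring
  have e3 : ∑ i, u i ^ 2 = κ ^ 2 * θ ^ 2 * Q := by
    rw [hu, hQ, Finset.mul_sum]
    refine Finset.sum_congr rfl fun i _ => ?_
    ring
  rw [e2, ← hcp] at hp
  rw [e3, ← hCq] at d4
  rw [← hQ]
  have h1 := mul_le_mul_of_nonneg_left hp hθ0
  have h2 : Cq * (κ ^ 2 * θ ^ 2 * Q) ≤ κ * cp / 2 * θ ^ 2 * Q := by
    have h3 : 0 ≤ θ ^ 2 * Q := mul_nonneg (sq_nonneg _) hQ0
    have h4 := mul_le_mul_of_nonneg_left hκ2 (mul_nonneg hκ0.le h3)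
    nlinarith
  nlinarith

end

end Pool.Agent.W_7d29a1_h18
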