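import Pool.Agent.W_7d29a1_h18.PlA
import Pool.Agent.W_7d29a1_F.VlA

/-!
Planting (MP_7d29a1_pr, track G, hypothesis hE): the lower bound for the exponential moments of the free energy by the mean
occupation of the sites. (helper18)
-/

namespace Pool.Agent.W_7d29a1_h18

open MeasureTheory ProbabilityTheory Pool.Agent.W_7d29a1_h42 Pool.Agent.W_7d29a1_h47 Pool.Agent.W_7d29a1_F

noncomputable section

variable {μ : Measure ℝ} [IsProbabilityMeasure μ]

/-- The sites which are used. -/
def ST (n : ℕ) : Finset (ℕ × ℤ) := Finset.range n ×ˢ Finset.Icc (-(2 * n : ℤ)) (2 * n)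

/-- Their number. -/
def NS (n : ℕ) : ℕ := (ST n).card

/-- The enumeration of the sites. -/
def xs (n : ℕ) (i : Fin (NS n)) : ℕ × ℤ := ((ST n).equivFin.symm i : ℕ × ℤ)

lemma xs_inj (n : ℕ) : Function.Injective (xs n) := fun _ _ h =>
  (ST n).equivFin.symm.injective (Subtype.ext h)

lemma xs_mem (n : ℕ) (i : Fin (NS n)) : xs n i ∈ ST n := ((ST n).equivFin.symm i).2

lemma sum_xs (n : ℕ) (f : ℕ × ℤ → ℝ) : ∑ i, f (xs n i) = ∑ z ∈ ST n, f z := by
  rw [← Finset.sum_coe_sort (ST n) f]
  exact Equiv.sum_comp (ST n).equivFin.symm fun z : ST n => f z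

lemma xs_surj {n : ℕ} {z : ℕ × ℤ} (hz : z ∈ ST n) : ∃ i, xs n i = z :=
  ⟨(ST n).equivFin ⟨z, hz⟩, by unfold xs; rw [Equiv.symm_apply_apply]⟩

/-- The environment with given values in the sites, and `0` elsewhere. -/
def emb (n : ℕ) (w : Fin (NS n) → ℝ) : Pool.Agent.W_7d29a1_h47.Env := Function.extend (xs n) w 0

lemma emb_xs (n : ℕ) (w : Fin (NS n) → ℝ) (i : Fin (NS n)) : emb n w (xs n i) = w i :=
  (xs_inj n).extend_apply _ _ _

lemma emb_out (n : ℕ) (w : Fin (NS n) → ℝ) {z : ℕ × ℤ} (hz : z ∉ ST n) : emb n w z = 0 := by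
  unfold emb
  rw [Function.extend_apply']
  · rfl
  · rintro ⟨i, hi⟩
    exact hz (hi ▸ xs_mem n i)

lemma emb_meas (n : ℕ) : Measurable (emb n) := by
  refine measurable_pi_lambda _ fun z => ?_
  by_cases hz : z ∈ ST n
  · obtain ⟨i, rfl⟩ := xs_surj hz
    have : (fun w => emb n w (xs n i)) = fun w => w i := funext fun w => emb_xs n w i
    rw [this]
    exact measurable_pi_apply i
  · have : (fun w => emb n w z) = fun _ => (0 : ℝ) := funext fun w => emb_out n w hz
    rw [this]
    exact measurable_const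

lemma emb_update (n : ℕ) (w : Fin (NS n) → ℝ) (i : Fin (NS n)) (t : ℝ) :
    emb n (Function.update w i t) = Function.update (emb n w) (xs n i) t := by
  funext z
  by_cases hz : z ∈ ST n
  · obtain ⟨j, rfl⟩ := xs_surj hz
    rw [emb_xs]
    by_cases h : j = i
    · subst h
      rw [Function.update_self, Function.update_self]
    · rw [Function.update_of_ne h, Function.update_of_ne fun h' => h (xs_inj n h'), emb_xs]
  · rw [emb_out n _ hz, Function.update_of_ne, emb_out n _ hz]
    rintro rfl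
    exact hz (xs_mem n i)

/-- The restriction to the sites. -/
def res (n : ℕ) (g : Pool.Agent.W_7d29a1_h47.Env) : Fin (NS n) → ℝ := fun i => g (xs n i)

lemma mp_res (n : ℕ) : MeasurePreserving (res n) (Pool.Agent.W_7d29a1_h47.law μ) (PN μ (NS n)) := by
  refine ⟨measurable_pi_lambda _ fun i => measurable_pi_apply _, ?_⟩
  have h := Measure.map_infinitePi_infinitePi_of_inj (P := fun _ : ℕ × ℤ => μ) (xs_inj n)
  have h2 : Measure.infinitePi (fun _ : Fin (NS n) => μ) = PN μ (NS n) := Measure.infinitePi_eq_pi _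
  exact h.trans h2

lemma site_mem {n i : ℕ} (hi : i < n) (s : ℕ → Bool) : ((i, pos s (i + 1)) : ℕ × ℤ) ∈ ST n := by
  unfold ST
  rw [Finset.mem_product, Finset.mem_range, Finset.mem_Icc]
  have h := abs_le.1 (pos_abs_le s (i + 1))
  push_cast at h
  refine ⟨hi, ?_, ?_⟩
  · show -(2 * (n : ℤ)) ≤ pos s (i + 1)
    omega
  · show pos s (i + 1) ≤ 2 * (n : ℤ)
    omega

lemma En_res (n : ℕ) (g : Pool.Agent.W_7d29a1_h47.Env) (s : ℕ → Bool) : En (emb n (res n g)) 0 0 n s = En g 0 0 n s := by
  unfold En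
  refine Finset.sum_congr rfl fun i hi => ?_
  rw [zero_add, zero_add]
  obtain ⟨j, hj⟩ := xs_surj (site_mem (Finset.mem_range.1 hi) s)
  rw [← hj, emb_xs]
  rfl

lemma wt_res (n : ℕ) (g : Pool.Agent.W_7d29a1_h47.Env) (h : ℝ) (s : ℕ → Bool) :
    wt (emb n (res n g)) h 0 0 n s = wt g h 0 0 n s := by
  unfold wt
  rw [En_res]

lemma Z_res (n : ℕ) (g : Pool.Agent.W_7d29a1_h47.Env) (h : ℝ) : Z (emb n (res n g)) h 0 0 n = Z g h 0 0 n := by
  unfold Z
  exact Finset.sum_congr rfl fun s _ => wt_res n g h s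

lemma Av_res (n : ℕ) (g : Pool.Agent.W_7d29a1_h47.Env) (h : ℝ) (F : (ℕ → Bool) → ℝ) :
    Av (emb n (res n g)) h 0 0 n F = Av g h 0 0 n F := by
  unfold Av
  rw [Z_res, Finset.sum_congr rfl fun s _ => by rw [wt_res]]

/-- The energy as a sum over the sites. -/
lemma En_sub (n : ℕ) (g g' : Pool.Agent.W_7d29a1_h47.Env) (s : ℕ → Bool) :
    En g' 0 0 n s - En g 0 0 n s = ∑ z ∈ ST n, vis z n s * (g' z - g z) := by
  unfold En
  rw [← Finset.sum_sub_distrib]
  unfold ST
  rw [Finset.sum_product]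
  refine Finset.sum_congr rfl fun i hi => ?_
  rw [zero_add, zero_add]
  have hm := site_mem (Finset.mem_range.1 hi) s
  unfold ST at hm
  rw [Finset.mem_product] at hm
  rw [Finset.sum_eq_single_of_mem (pos s (i + 1)) hm.2]
  · unfold vis
    rw [ind_true ⟨Finset.mem_range.1 hi, rfl⟩, one_mul]
  · intro y _ hy
    unfold vis
    rw [ind_false fun h => hy h.2.symm, zero_mul]

lemma log_Z_ge (n : ℕ) (g g' : Pool.Agent.W_7d29a1_h47.Env) (h : ℝ) :
    Real.log (Z g h 0 0 n) + ∑ z ∈ ST n, Av g h 0 0 n (fun s => vis z n s) * (g' z - g z) ≤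
      Real.log (Z g' h 0 0 n) := by
  have h1 := Av_le_log (g := g) (h := h) (t := 0) (x := 0) (n := n) fun s => ∑ z ∈ ST n, vis z n s * (g' z - g z)
  have h2 : Av g h 0 0 n (fun s => Real.exp (∑ z ∈ ST n, vis z n s * (g' z - g z))) = Z g' h 0 0 n / Z g h 0 0 n := by
    unfold Av
    congr 1
    unfold Z
    refine Finset.sum_congr rfl fun s _ => ?_
    show wt g h 0 0 n s * Real.exp (∑ z ∈ ST n, vis z n s * (g' z - g z)) = wt g' h 0 0 n s
    rw [← En_sub]
    unfold wt
    rw [← Real.exp_add]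
    congr 1
    ring
  rw [h2, Real.log_div (Z_pos _ _ _ _ _).ne' (Z_pos _ _ _ _ _).ne', Av_sum] at h1
  simp only [Av_mul_right] at h1
  linarith

/-- The lower bound for the exponential moments of the free energy. -/
theorem expmom_Z (hμ : EM μ) (hnd : Nondeg μ) : ∃ c : ℝ, 0 < c ∧ ∀ (h : ℝ) (n : ℕ) (θ : ℝ), 0 ≤ θ → θ ≤ 1 →
    θ * a μ h n + c * θ ^ 2 * ∑ z ∈ ST n, VlOcc μ h n z ^ 2 ≤
      Real.log (∫ g, Real.exp (θ * Real.log (Z g h 0 0 n)) ∂(Pool.Agent.W_7d29a1_h47.law μ)) := by
  obtain ⟨xm, xp, hx, hp, hq⟩ := exists_gap hnd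
  have hν : FM μ := by
    unfold FM
    have h1 := hμ 1
    refine h1.mono' measurable_id.aestronglyMeasurable (Filter.Eventually.of_forall fun t => ?_)
    have h2 := Real.add_one_le_exp (1 * |t|)
    rw [Real.norm_eq_abs]
    show |t| ≤ _
    linarith
  obtain ⟨A, hA⟩ : ∃ A, A = ∫ t in Set.Iic xm, Real.exp (-|t|) ∂μ := ⟨_, rfl⟩
  obtain ⟨B, hB⟩ : ∃ B, B = ∫ t, Real.exp (1 * |t|) ∂μ := ⟨_, rfl⟩
  have hexpI : Integrable (fun t : ℝ => Real.exp (-|t|)) μ := by
    refine Integrable.of_bound (C := 1) (by fun_prop) (Filter.Eventually.of_forall fun t => ?_)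
    rw [Real.norm_eq_abs, abs_of_pos (Real.exp_pos _)]
    exact Real.exp_le_one_iff.2 (by simp)
  have hA0 : 0 < A := by
    rw [hA]
    rw [setIntegral_pos_iff_support_of_nonneg_ae (Filter.Eventually.of_forall fun t => (Real.exp_pos _).le) hexpI.integrableOn]
    have h1 : Function.support (fun t : ℝ => Real.exp (-|t|)) = Set.univ := by
      ext t
      simp [(Real.exp_pos (-|t|)).ne']
    rw [h1, Set.univ_inter]
    rw [measureReal_def] at hp
    exact (ENNReal.toReal_pos_iff.1 hp).1
  have hB0 : 0 < B := by rw [hB]; exact integral_exp_pos (hμ 1)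
  obtain ⟨c2, hc2⟩ : ∃ c2, c2 = A / B := ⟨_, rfl⟩
  have hc20 : 0 < c2 := by rw [hc2]; positivity
  obtain ⟨c, hc, H⟩ := expmom (ν := μ) hν hx hq hc20
  refine ⟨c, hc, fun h n θ hθ0 hθ1 => ?_⟩
  obtain ⟨F, hF⟩ : ∃ F : (Fin (NS n) → ℝ) → ℝ, F = fun w => Real.log (Z (emb n w) h 0 0 n) := ⟨_, rfl⟩
  obtain ⟨g, hg⟩ : ∃ g : Fin (NS n) → (Fin (NS n) → ℝ) → ℝ,
    g = fun i w => Av (emb n w) h 0 0 n (fun s => vis (xs n i) n s) := ⟨_, rfl⟩
  have hFm : Measurable F := by
    rw [hF]
    exact Real.measurable_log.comp ((measurable_Z h 0 0 n).comp (emb_meas n))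
  have hFLG : LG (NS n) F := by
    refine ⟨hFm, 1 + (|h| + Real.log 2) * n, ?_, fun w => ?_⟩
    · have := Real.log_pos (one_lt_two)
      positivity
    · rw [hF]
      have h1 := abs_log_Z_le (emb n w) h 0 0 n
      have h2 : Pool.Agent.W_7d29a1_h47.V (emb n w) 0 0 n ≤ ∑ i, |w i| := by
        have e1 : ∑ i, |w i| = ∑ z ∈ ST n, |emb n w z| := by
          rw [← sum_xs n fun z => |emb n w z|]
          simp only [emb_xs]
        rw [e1]
        unfold Pool.Agent.W_7d29a1_h47.V ST
        rw [Finset.sum_product]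
        refine Finset.sum_le_sum fun i hi => ?_
        simp only [zero_add, zero_sub]
        refine Finset.sum_le_sum_of_subset_of_nonneg ?_ fun _ _ _ => abs_nonneg _
        intro y hy
        rw [Finset.mem_Icc] at hy ⊢
        have := Finset.mem_range.1 hi
        constructor <;> omega
      have h3 : 0 ≤ ∑ i, |w i| := Finset.sum_nonneg fun i _ => abs_nonneg _
      have h4 : 0 ≤ (|h| + Real.log 2) * (n : ℝ) := by
        have := Real.log_pos (one_lt_two)
        positivity
      show |Real.log (Z (emb n w) h 0 0 n)| ≤ _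
      nlinarith
  have hgm : ∀ i, Measurable (g i) := fun i => by
    rw [hg]
    exact (VlA_Av_meas h n (xs n i)).comp (emb_meas n)
  have hg0 : ∀ i w, 0 ≤ g i w := fun i w => by
    rw [hg]
    exact Av_nonneg fun s _ => SiteK_vis_nonneg _ _ _
  have hg1 : ∀ i w, g i w ≤ 1 := fun i w => by
    rw [hg]
    exact Av_le fun s _ => SiteK_vis_le _ _ _
  have hup : ∀ i w (t r : ℝ), g i (Function.update w i t) ≤ Real.exp |t - r| * g i (Function.update w i r) := by
    intro i w t r
    rw [hg]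
    show Av (emb n (Function.update w i t)) h 0 0 n _ ≤ _ * Av (emb n (Function.update w i r)) h 0 0 n _
    have e1 : emb n (Function.update w i t) = Function.update (emb n (Function.update w i r)) (xs n i) t := by
      rw [← emb_update, Function.update_idem]
    rw [e1]
    have h1 := Av_update_le (emb n (Function.update w i r)) h (xs n i) t n
      (F := fun s => vis (xs n i) n s) fun s _ => SiteK_vis_nonneg _ _ _
    rw [emb_xs, Function.update_self] at h1
    exact h1
  have hGD : GD μ xm 1 c2 (NS n) g := by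
    refine ⟨hgm, hg0, hg1, fun i w => ?_⟩
    obtain ⟨f, hf⟩ : ∃ f : ℝ → ℝ, f = fun t => g i (Function.update w i t) := ⟨_, rfl⟩
    have hfm : Measurable f := by
      rw [hf]
      exact (hgm i).comp (measurable_update w)
    have hf0 : ∀ t, 0 ≤ f t := fun t => by rw [hf]; exact hg0 _ _
    have hfI : Integrable f μ := by
      refine Integrable.of_bound (C := 1) hfm.aestronglyMeasurable (Filter.Eventually.of_forall fun t => ?_)
      rw [Real.norm_eq_abs, abs_of_nonneg (hf0 t), hf]
      exact hg1 _ _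
    have h1 : ∫ t, f t ∂μ ≤ B * f 0 := by
      rw [hB, ← integral_mul_const]
      refine integral_mono hfI ((hμ 1).mul_const _) fun t => ?_
      have := hup i w t 0
      rw [sub_zero] at this
      rw [hf, one_mul]
      exact this
    have h2 : A * f 0 ≤ ∫ t in Set.Iic xm, f t ∂μ := by
      rw [hA, ← integral_mul_const]
      refine integral_mono (hexpI.mul_const _).integrableOn hfI.integrableOn fun t => ?_
      have h3 := hup i w 0 t
      rw [zero_sub, abs_neg] at h3
      have h4 := mul_le_mul_of_nonneg_left h3 (Real.exp_pos (-|t|)).le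
      rw [← mul_assoc, ← Real.exp_add, neg_add_cancel, Real.exp_zero, one_mul] at h4
      rw [hf]
      exact h4
    have h3 : c2 * ∫ t, f t ∂μ ≤ A * f 0 := by
      have h4 := mul_le_mul_of_nonneg_left h1 hc20.le
      have h5 : c2 * (B * f 0) = A * f 0 := by
        rw [hc2]
        field_simp
      rw [h5] at h4
      exact h4
    have h4 := h3.trans h2
    rw [hf] at h4
    exact h4
  have hconv : ∀ x y, F x + ∑ i, g i x * (y i - x i) ≤ F y := by
    intro x y
    have h1 := log_Z_ge n (emb n x) (emb n y) h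
    rw [← sum_xs n fun z => Av (emb n x) h 0 0 n (fun s => vis z n s) * (emb n y z - emb n x z)] at h1
    simp only [emb_xs] at h1
    rw [hF, hg]
    exact h1
  have hmp := mp_res (μ := μ) n
  have hFres : ∀ g0 : Pool.Agent.W_7d29a1_h47.Env, F (res n g0) = Real.log (Z g0 h 0 0 n) := fun g0 => by
    rw [hF]
    show Real.log (Z (emb n (res n g0)) h 0 0 n) = _
    rw [Z_res]
  have hexp : Integrable (fun w => Real.exp (θ * F w)) (PN μ (NS n)) := by
    have hm : Measurable fun w => Real.exp (θ * F w) := Real.measurable_exp.comp (hFm.const_mul θ)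
    rw [← hmp.integrable_comp hm.aestronglyMeasurable]
    have h1 := (EMom_logZ hμ h 0 0 n).integrable_exp θ
    refine h1.congr (Filter.Eventually.of_forall fun g0 => ?_)
    show Real.exp (θ * Real.log (Z g0 h 0 0 n)) = Real.exp (θ * F (res n g0))
    rw [hFres]
  have main := H (NS n) F g hFLG hGD hconv θ hθ0 hθ1 hexp
  have e1 : ∫ w, F w ∂(PN μ (NS n)) = a μ h n := by
    rw [← mp_integral hmp hFm.aestronglyMeasurable]
    unfold a
    exact integral_congr_ae (Filter.Eventually.of_forall hFres)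
  have e2 : ∫ w, Real.exp (θ * F w) ∂(PN μ (NS n)) =
      ∫ g, Real.exp (θ * Real.log (Z g h 0 0 n)) ∂(Pool.Agent.W_7d29a1_h47.law μ) := by
    have hm : Measurable fun w => Real.exp (θ * F w) := Real.measurable_exp.comp (hFm.const_mul θ)
    rw [← mp_integral hmp hm.aestronglyMeasurable]
    refine integral_congr_ae (Filter.Eventually.of_forall fun g0 => ?_)
    show Real.exp (θ * F (res n g0)) = _
    rw [hFres]
  have e3 : ∀ i, ∫ w, g i w ∂(PN μ (NS n)) = VlOcc μ h n (xs n i) := by
    intro i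
    rw [← mp_integral hmp (hgm i).aestronglyMeasurable]
    unfold VlOcc
    refine integral_congr_ae (Filter.Eventually.of_forall fun g0 => ?_)
    show g i (res n g0) = _
    rw [hg]
    show Av (emb n (res n g0)) h 0 0 n _ = _
    rw [Av_res]
  rw [e1, e2] at main
  simp only [e3] at main
  rw [sum_xs n fun z => VlOcc μ h n z ^ 2] at main
  exact main

end

end Pool.Agent.W_7d29a1_h18
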