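import Pool.Agent.W_7d29a1_h18.PlC
import Pool.Agent.W_7d29a1_F.Bridge2
import Pool.Agent.W_7d29a1_h60.LuckBound

/-!
Exponential moments of the luck (MP_7d29a1_pr, track G, hypothesis hE): supermultiplicativity, and the lower bound by planting.
(helper18)
-/

namespace Pool.Agent.W_7d29a1_h18

open MeasureTheory ProbabilityTheory Filter Topology Pool.Agent.W_7d29a1_F Pool.Agent.W_7d29a1_h60

noncomputable section

variable {μ : Measure ℝ} [IsProbabilityMeasure μ] {s : ℝ}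

/-- The exponential moment of the luck. -/
def MM (μ : Measure ℝ) (s θ : ℝ) (n : ℕ) : ℝ := ∫ η, Real.exp (θ * V μ s η 0 n) ∂(law μ)

lemma int_exp_V (hμ : Pool.Agent.W_7d29a1_h47.EM μ) (θ : ℝ) (a : Pt) (n : ℕ) :
    Integrable (fun η => Real.exp (θ * V μ s η a n)) (law μ) := ((Sub_V a n).const_mul θ).exp_int hμ

lemma MM_pos (hμ : Pool.Agent.W_7d29a1_h47.EM μ) (θ : ℝ) (n : ℕ) : 0 < MM μ s θ n :=
  integral_exp_pos (int_exp_V hμ θ 0 n)

lemma MM_at (θ : ℝ) (a : Pt) (n : ℕ) : ∫ η, Real.exp (θ * V μ s η a n) ∂(law μ) = MM μ s θ n :=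
  integral_V_fun (μ := μ) (s := s) (f := fun x => Real.exp (θ * x)) (by fun_prop) a n

/-- Supermultiplicativity. -/
theorem MM_add (hμ : Pool.Agent.W_7d29a1_h47.EM μ) {θ : ℝ} (hθ0 : 0 ≤ θ) (hθ1 : θ ≤ 1) (m n : ℕ) :
    MM μ s θ m * MM μ s θ n ≤ MM μ s θ (m + n) := by
  classical
  obtain ⟨f, hf⟩ : ∃ f : ℤ → Env → ℝ, f = fun k η => Real.exp (θ * V μ s η 0 m) *
    (W μ s η 0 m k / Real.exp (V μ s η 0 m)) := ⟨_, rfl⟩
  obtain ⟨g, hg⟩ : ∃ g : ℤ → Env → ℝ, g = fun k η => Real.exp (θ * V μ s η ((0 : Pt).1 + m, (0 : Pt).2 + k) n) :=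
    ⟨_, rfl⟩
  have hfm : ∀ k, Measurable (f k) := fun k => by
    rw [hf]
    exact (Real.measurable_exp.comp ((measurable_V _ _).const_mul θ)).mul
      ((measurable_W _ _ _).div (Real.measurable_exp.comp (measurable_V _ _)))
  have hgm : ∀ k, Measurable (g k) := fun k => by
    rw [hg]
    exact Real.measurable_exp.comp ((measurable_V _ _).const_mul θ)
  have hf0 : ∀ k η, 0 ≤ f k η := fun k η => by
    rw [hf]
    exact mul_nonneg (Real.exp_pos _).le (div_nonneg (W_nonneg _ _ _ _) (Real.exp_pos _).le)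
  have hg0 : ∀ k η, 0 ≤ g k η := fun k η => by
    rw [hg]
    exact (Real.exp_pos _).le
  have hfle : ∀ k ∈ Finset.Icc (0 : ℤ) m, ∀ η, f k η ≤ Real.exp (θ * V μ s η 0 m) := by
    intro k hk η
    rw [hf]
    refine mul_le_of_le_one_right (Real.exp_pos _).le ?_
    rw [div_le_one (Real.exp_pos _), exp_V]
    exact Finset.single_le_sum (f := fun k => W μ s η 0 m k) (fun k _ => W_nonneg _ _ _ _) hk
  have hfI : ∀ k ∈ Finset.Icc (0 : ℤ) m, Integrable (f k) (law μ) := fun k hk => by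
    refine (int_exp_V (s := s) hμ θ 0 m).mono' (hfm k).aestronglyMeasurable (Eventually.of_forall fun η => ?_)
    rw [Real.norm_eq_abs, abs_of_nonneg (hf0 k η)]
    exact hfle k hk η
  have hfgI : ∀ k ∈ Finset.Icc (0 : ℤ) m, Integrable (fun η => f k η * g k η) (law μ) := fun k hk => by
    have h1 : Integrable (fun η => Real.exp (θ * V μ s η 0 m) * g k η) (law μ) := by
      have h2 : Sub fun η => θ * V μ s η 0 m + θ * V μ s η ((0 : Pt).1 + m, (0 : Pt).2 + k) n :=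
        ((Sub_V _ _).const_mul θ).add ((Sub_V _ _).const_mul θ)
      refine (h2.exp_int hμ).congr (Eventually.of_forall fun η => ?_)
      rw [hg]
      exact Real.exp_add _ _
    refine h1.mono' ((hfm k).mul (hgm k)).aestronglyMeasurable (Eventually.of_forall fun η => ?_)
    rw [Real.norm_eq_abs, abs_of_nonneg (mul_nonneg (hf0 k η) (hg0 k η))]
    exact mul_le_mul_of_nonneg_right (hfle k hk η) (hg0 k η)
  have hpt : ∀ η, ∑ k ∈ Finset.Icc (0 : ℤ) m, f k η * g k η ≤ Real.exp (θ * V μ s η 0 (m + n)) := by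
    intro η
    obtain ⟨S, hS⟩ : ∃ S, S = Real.exp (V μ s η 0 m) := ⟨_, rfl⟩
    have hS0 : 0 < S := by rw [hS]; exact Real.exp_pos _
    have hSs : ∑ k ∈ Finset.Icc (0 : ℤ) m, W μ s η 0 m k = S := by
      rw [hS, exp_V]
      rfl
    have h1 := (Real.concaveOn_rpow hθ0 hθ1).le_map_sum (t := Finset.Icc (0 : ℤ) m)
      (w := fun k => W μ s η 0 m k / S)
      (p := fun k => Real.exp (V μ s η ((0 : Pt).1 + m, (0 : Pt).2 + k) n))
      (fun k _ => div_nonneg (W_nonneg _ _ _ _) hS0.le)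
      (by rw [← Finset.sum_div, hSs, div_self hS0.ne'])
      (fun k _ => (Real.exp_pos _).le)
    simp only [smul_eq_mul] at h1
    have h2 : ∑ k ∈ Finset.Icc (0 : ℤ) m, W μ s η 0 m k / S *
        Real.exp (V μ s η ((0 : Pt).1 + m, (0 : Pt).2 + k) n) = Real.exp (V μ s η 0 (m + n)) / S := by
      rw [exp_V_add, Finset.sum_div]
      refine Finset.sum_congr rfl fun k _ => ?_
      ring
    rw [h2] at h1
    have h3 : Real.exp (θ * V μ s η 0 (m + n)) = Real.exp (θ * V μ s η 0 m) * (Real.exp (V μ s η 0 (m + n)) / S) ^ θ := by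
      rw [hS, ← Real.exp_sub, ← Real.exp_mul, ← Real.exp_add]
      congr 1
      ring
    rw [h3]
    refine le_trans (le_of_eq ?_) (mul_le_mul_of_nonneg_left h1 (Real.exp_pos _).le)
    rw [Finset.mul_sum]
    refine Finset.sum_congr rfl fun k _ => ?_
    rw [hf, hg]
    show Real.exp (θ * V μ s η 0 m) * (W μ s η 0 m k / Real.exp (V μ s η 0 m)) * Real.exp (θ * _) =
      Real.exp (θ * V μ s η 0 m) * (W μ s η 0 m k / S * Real.exp _ ^ θ)
    rw [← Real.exp_mul, ← hS, mul_comm θ (V μ s η ((0 : Pt).1 + m, (0 : Pt).2 + k) n)]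
    ring
  have hind : ∀ k ∈ Finset.Icc (0 : ℤ) m, ∫ η, f k η * g k η ∂(law μ) = (∫ η, f k η ∂(law μ)) * MM μ s θ n := by
    intro k hk
    rw [integral_indep (A := rows 0 m) (B := rows m (m + n)) (hfm k) (hgm k)]
    · congr 1
      rw [hg]
      exact MM_at θ _ n
    · intro η η' h
      have e1 : V μ s η 0 m = V μ s η' 0 m := V_dep_rows (μ := μ) (s := s) 0 m fun x hx => h x (by simpa using hx)
      have e2 : W μ s η 0 m k = W μ s η' 0 m k := W_dep_rows (μ := μ) (s := s) 0 m k fun x hx => h x (by simpa using hx)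
      rw [hf]
      show Real.exp (θ * V μ s η 0 m) * (W μ s η 0 m k / Real.exp (V μ s η 0 m)) =
        Real.exp (θ * V μ s η' 0 m) * (W μ s η' 0 m k / Real.exp (V μ s η' 0 m))
      rw [e1, e2]
    · intro η η' h
      have e1 : V μ s η ((0 : Pt).1 + m, (0 : Pt).2 + k) n = V μ s η' ((0 : Pt).1 + m, (0 : Pt).2 + k) n :=
        V_dep_rows (μ := μ) (s := s) _ n fun x hx => h x (by simpa using hx)
      rw [hg]
      show Real.exp (θ * _) = Real.exp (θ * _)
      rw [e1]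
    · exact rows_disj le_rfl
  have h1 : ∑ k ∈ Finset.Icc (0 : ℤ) m, ∫ η, f k η * g k η ∂(law μ) ≤ MM μ s θ (m + n) := by
    rw [← integral_finsetSum _ hfgI]
    exact integral_mono (integrable_finsetSum _ hfgI) (int_exp_V hμ θ 0 (m + n)) hpt
  rw [Finset.sum_congr rfl hind, ← Finset.sum_mul, ← integral_finsetSum _ hfI] at h1
  have h2 : ∫ η, ∑ k ∈ Finset.Icc (0 : ℤ) m, f k η ∂(law μ) = MM μ s θ m := by
    refine integral_congr_ae (Eventually.of_forall fun η => ?_)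
    show ∑ k ∈ Finset.Icc (0 : ℤ) m, f k η = Real.exp (θ * V μ s η 0 m)
    rw [hf]
    show ∑ k ∈ Finset.Icc (0 : ℤ) m, Real.exp (θ * V μ s η 0 m) * (W μ s η 0 m k / Real.exp (V μ s η 0 m)) = _
    rw [← Finset.mul_sum, ← Finset.sum_div, exp_V]
    have h3 : 0 < WS μ s η 0 m (Finset.Icc (0 : ℤ) m) := by
      rw [← exp_V]
      exact Real.exp_pos _
    unfold WS at h3 ⊢
    rw [div_self h3.ne', mul_one]
  rw [h2] at h1
  exact h1

lemma MM_zero (θ : ℝ) : MM μ s θ 0 = 1 := by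
  unfold MM
  simp only [V_zero, mul_zero, Real.exp_zero]
  simp

theorem MM_mul (hμ : Pool.Agent.W_7d29a1_h47.EM μ) {θ : ℝ} (hθ0 : 0 ≤ θ) (hθ1 : θ ≤ 1) (m k : ℕ) :
    MM μ s θ m ^ k ≤ MM μ s θ (k * m) := by
  induction k with
  | zero => rw [zero_mul, MM_zero, pow_zero]
  | succ k ih =>
    have h1 := MM_add (s := s) hμ hθ0 hθ1 (k * m) m
    have h2 : (k + 1) * m = k * m + m := by ring
    rw [h2, pow_succ]
    exact (mul_le_mul_of_nonneg_right ih (MM_pos hμ θ m).le).trans h1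

private lemma PlD_int {F : Pool.Agent.W_7d29a1_h47.Env → ℝ} (hF : Measurable F) :
    ∫ η, F (toH η) ∂(law μ) = ∫ g, F g ∂(Pool.Agent.W_7d29a1_h47.law μ) := by
  have h := mp_toH (μ := μ)
  rw [← h.map_eq]
  exact (integral_map h.measurable.aemeasurable hF.aestronglyMeasurable).symm

lemma V_eq_logZ (η : Env) (n : ℕ) : V μ s η 0 n =
    Real.log (Pool.Agent.W_7d29a1_h47.Z (toH η) (s / 2) 0 0 n) - n * Pool.Agent.W_7d29a1_h47.Lam μ (s / 2) := by
  have h1 : WS μ s η 0 n (Finset.Icc (0 : ℤ) n) =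
      Real.exp (-(n * lam μ s)) * (Real.exp (s / 2 * n) *
        Pool.Agent.W_7d29a1_h47.Z (toH η) (s / 2) 0 0 n) := by
    rw [← sum_Zr_eq_Z, Finset.mul_sum]
    unfold WS W WR
    refine Finset.sum_congr rfl fun y _ => ?_
    rw [← mul_assoc, ← Real.exp_add]
    congr 2
    ring
  unfold V
  rw [h1, Real.log_mul (Real.exp_pos _).ne'
    (mul_pos (Real.exp_pos _) (Pool.Agent.W_7d29a1_h47.Z_pos _ _ _ _ _)).ne',
    Real.log_mul (Real.exp_pos _).ne' (Pool.Agent.W_7d29a1_h47.Z_pos _ _ _ _ _).ne',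
    Real.log_exp, Real.log_exp]
  unfold lam
  ring

/-- The lower bound by planting. -/
theorem MM_ge (hμ : Pool.Agent.W_7d29a1_h47.EM μ) (hnd : Pool.Agent.W_7d29a1_h47.Nondeg μ)
    (hd : DifferentiableAt ℝ (Pool.Agent.W_7d29a1_h47.Lam μ) (s / 2)) (K : ℝ) :
    ∃ n0 : ℕ, ∀ n : ℕ, n0 ≤ n → ∀ θ : ℝ, 0 ≤ θ → θ ≤ 1 →
      θ * ∫ η, V μ s η 0 n ∂(law μ) + θ ^ 2 * (K * Real.log n) ≤ Real.log (MM μ s θ n) := by
  obtain ⟨n0, h0⟩ := expmom_log hμ hnd hd K
  refine ⟨n0, fun n hn θ hθ0 hθ1 => ?_⟩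
  have h1 := h0 n hn θ hθ0 hθ1
  rw [integral_V_eq hμ]
  have h2 : MM μ s θ n = Real.exp (-(θ * (n * Pool.Agent.W_7d29a1_h47.Lam μ (s / 2)))) *
      ∫ g, Real.exp (θ * Real.log (Pool.Agent.W_7d29a1_h47.Z g (s / 2) 0 0 n)) ∂(Pool.Agent.W_7d29a1_h47.law μ) := by
    rw [← PlD_int (F := fun g => Real.exp (θ * Real.log (Pool.Agent.W_7d29a1_h47.Z g (s / 2) 0 0 n))) (by fun_prop),
      ← integral_const_mul]
    unfold MM
    refine integral_congr_ae (Eventually.of_forall fun η => ?_)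
    show Real.exp (θ * V μ s η 0 n) = Real.exp (-(θ * (n * Pool.Agent.W_7d29a1_h47.Lam μ (s / 2)))) *
      Real.exp (θ * Real.log (Pool.Agent.W_7d29a1_h47.Z (toH η) (s / 2) 0 0 n))
    rw [V_eq_logZ, ← Real.exp_add]
    congr 1
    ring
  have h3 : 0 < ∫ g, Real.exp (θ * Real.log (Pool.Agent.W_7d29a1_h47.Z g (s / 2) 0 0 n))
      ∂(Pool.Agent.W_7d29a1_h47.law μ) :=
    integral_exp_pos ((Pool.Agent.W_7d29a1_h47.EMom_logZ hμ (s / 2) 0 0 n).integrable_exp θ)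
  rw [h2, Real.log_mul (Real.exp_pos _).ne' h3.ne', Real.log_exp]
  linarith

end

end Pool.Agent.W_7d29a1_h18
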