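import Pool.Agent.W_7d29a1_h18.PlD

/-!
Exponential moments of the luck (MP_7d29a1_pr, track G, hypothesis hE): the restart. If the luck is rarely larger than `Y` then
its exponential moment is at most `2 exp (θ Y)`. (helper18)
-/

namespace Pool.Agent.W_7d29a1_h18

open MeasureTheory ProbabilityTheory Filter Topology Pool.Agent.W_7d29a1_F Pool.Agent.W_7d29a1_h60

noncomputable section

variable {μ : Measure ℝ} {s : ℝ}

/-- The overshoot. -/
def OO (μ : Measure ℝ) (s θ : ℝ) (j : ℕ) (η : Env) : ℝ :=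
  ∑ k ∈ Finset.Icc (0 : ℤ) ((j - 1 : ℕ) : ℤ), Real.exp (θ * V μ s η (((j - 1 : ℕ) : ℤ), k) 1)

/-- The future. -/
def RR (μ : Measure ℝ) (s θ : ℝ) (j l : ℕ) (η : Env) : ℝ :=
  ∑ k ∈ Finset.Icc (0 : ℤ) (j : ℤ), Real.exp (θ * V μ s η ((j : ℤ), k) l)

/-- The first time at which the luck exceeds `Y`. -/
def FT (μ : Measure ℝ) (s Y : ℝ) (i j : ℕ) (η : Env) : ℝ :=
  io (Fi (Finset.range (i + 1)) (fun l => l) (fun l => Y ≤ V μ s η 0 l) j)

/-- The luck after the time `j`. -/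
lemma exp_V_le (η : Env) {θ : ℝ} (hθ : 0 ≤ θ) (j l : ℕ) :
    Real.exp (θ * V μ s η 0 (j + l)) ≤ Real.exp (θ * V μ s η 0 j) * RR μ s θ j l η := by
  classical
  obtain ⟨k0, hk0, hmax⟩ := Finset.exists_max_image (Finset.Icc (0 : ℤ) (j : ℤ))
    (fun k => V μ s η ((j : ℤ), k) l) ⟨0, Finset.mem_Icc.2 ⟨le_rfl, Int.natCast_nonneg j⟩⟩
  have h1 : V μ s η 0 (j + l) ≤ V μ s η 0 j + V μ s η ((j : ℤ), k0) l := by
    refine V_add_le η (0 : Pt) j l fun k h2 h3 => ?_
    have h4 := hmax k (Finset.mem_Icc.2 ⟨h2, h3⟩)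
    have e : (((0 : Pt).1 + (j : ℤ), (0 : Pt).2 + k) : Pt) = ((j : ℤ), k) := by simp
    rw [e]
    exact h4
  have h2 : Real.exp (θ * V μ s η ((j : ℤ), k0) l) ≤ RR μ s θ j l η := by
    unfold RR
    exact Finset.single_le_sum (f := fun k => Real.exp (θ * V μ s η ((j : ℤ), k) l))
      (fun k _ => (Real.exp_pos _).le) hk0
  calc Real.exp (θ * V μ s η 0 (j + l)) ≤ Real.exp (θ * V μ s η 0 j + θ * V μ s η ((j : ℤ), k0) l) := by
        refine Real.exp_le_exp.2 ?_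
        have := mul_le_mul_of_nonneg_left h1 hθ
        linarith
    _ = Real.exp (θ * V μ s η 0 j) * Real.exp (θ * V μ s η ((j : ℤ), k0) l) := Real.exp_add _ _
    _ ≤ _ := mul_le_mul_of_nonneg_left h2 (Real.exp_pos _).le

lemma RR_nonneg (η : Env) (θ : ℝ) (j l : ℕ) : 0 ≤ RR μ s θ j l η := by
  unfold RR
  exact Finset.sum_nonneg fun k _ => (Real.exp_pos _).le

lemma OO_nonneg (η : Env) (θ : ℝ) (j : ℕ) : 0 ≤ OO μ s θ j η := by
  unfold OO
  exact Finset.sum_nonneg fun k _ => (Real.exp_pos _).le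

/-- The pointwise inequality. -/
lemma exp_V_hit (η : Env) {θ Y : ℝ} (hθ : 0 ≤ θ) (hY : 0 < Y) (i : ℕ) :
    Real.exp (θ * V μ s η 0 i) ≤ Real.exp (θ * Y) + ∑ j ∈ Finset.range (i + 1),
      FT μ s Y i j η * (Real.exp (θ * Y) * (OO μ s θ j η * RR μ s θ j (i - j) η)) := by
  classical
  have hterm : ∀ j ∈ Finset.range (i + 1), 0 ≤ FT μ s Y i j η *
      (Real.exp (θ * Y) * (OO μ s θ j η * RR μ s θ j (i - j) η)) := fun j _ =>
    mul_nonneg (io_nonneg _) (mul_nonneg (Real.exp_pos _).le (mul_nonneg (OO_nonneg _ _ _) (RR_nonneg _ _ _ _)))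
  by_cases h : ∃ j ∈ Finset.range (i + 1), Y ≤ V μ s η 0 j
  · obtain ⟨j, hj, hmin⟩ := Finset.exists_min_image ((Finset.range (i + 1)).filter fun j => Y ≤ V μ s η 0 j)
      (fun j => j) (by
        obtain ⟨j, h1, h2⟩ := h
        exact ⟨j, Finset.mem_filter.2 ⟨h1, h2⟩⟩)
    rw [Finset.mem_filter] at hj
    have hFi : Fi (Finset.range (i + 1)) (fun l => l) (fun l => Y ≤ V μ s η 0 l) j :=
      ⟨hj.2, fun l hl hlj hpl => absurd (hmin l (Finset.mem_filter.2 ⟨hl, hpl⟩)) (not_le.2 hlj)⟩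
    have hFT : FT μ s Y i j η = 1 := io_of hFi
    have hj0 : j ≠ 0 := by
      rintro rfl
      have := hj.2
      rw [V_zero] at this
      linarith
    obtain ⟨j', rfl⟩ : ∃ j', j = j' + 1 := ⟨j - 1, by omega⟩
    have hji : j' + 1 ≤ i := by
      have := Finset.mem_range.1 hj.1
      omega
    have hprev : V μ s η 0 j' < Y := by
      by_contra hcon
      rw [not_lt] at hcon
      have : j' + 1 ≤ j' := hmin j' (Finset.mem_filter.2 ⟨Finset.mem_range.2 (by omega), hcon⟩)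
      omega
    have h1 := exp_V_le (μ := μ) (s := s) η hθ (j' + 1) (i - (j' + 1))
    have h2 : j' + 1 + (i - (j' + 1)) = i := by omega
    rw [h2] at h1
    have h3 := exp_V_le (μ := μ) (s := s) η hθ j' 1
    have h4 : RR μ s θ j' 1 η = OO μ s θ (j' + 1) η := by
      unfold RR OO
      rw [Nat.add_sub_cancel]
    rw [h4] at h3
    have h5 : Real.exp (θ * V μ s η 0 j') ≤ Real.exp (θ * Y) :=
      Real.exp_le_exp.2 (mul_le_mul_of_nonneg_left hprev.le hθ)
    have h6 : Real.exp (θ * V μ s η 0 (j' + 1)) ≤ Real.exp (θ * Y) * OO μ s θ (j' + 1) η :=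
      h3.trans (mul_le_mul_of_nonneg_right h5 (OO_nonneg _ _ _))
    have h7 : Real.exp (θ * V μ s η 0 i) ≤ Real.exp (θ * Y) * (OO μ s θ (j' + 1) η * RR μ s θ (j' + 1) (i - (j' + 1)) η) := by
      refine h1.trans ?_
      rw [← mul_assoc]
      exact mul_le_mul_of_nonneg_right h6 (RR_nonneg _ _ _ _)
    have h8 := Finset.single_le_sum hterm hj.1
    rw [hFT, one_mul] at h8
    have h9 := (Real.exp_pos (θ * Y)).le
    linarith
  · have h1 : V μ s η 0 i < Y := by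
      by_contra hcon
      rw [not_lt] at hcon
      exact h ⟨i, Finset.self_mem_range_succ i, hcon⟩
    have h2 : Real.exp (θ * V μ s η 0 i) ≤ Real.exp (θ * Y) :=
      Real.exp_le_exp.2 (mul_le_mul_of_nonneg_left h1.le hθ)
    have h3 := Finset.sum_nonneg hterm
    linarith

lemma meas_hit (Y : ℝ) (l : ℕ) : MeasurableSet {η : Env | Y ≤ V μ s η 0 l} :=
  measurableSet_le measurable_const (measurable_V _ _)

lemma FT_meas (Y : ℝ) {i j : ℕ} (hj : j ∈ Finset.range (i + 1)) : Measurable (FT μ s Y i j) :=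
  measurable_io (meas_Fi (Finset.range (i + 1)) (fun l => l) (fun l _ => meas_hit Y l) hj)

lemma FT_dep (Y : ℝ) {i j : ℕ} (hj : j ∈ Finset.range (i + 1)) : DependsOn (FT μ s Y i j) (rows 0 j) := by
  refine dep_Fi (Finset.range (i + 1)) (fun l => l) hj fun l _ hle η η' h => ?_
  have h1 : V μ s η 0 l = V μ s η' 0 l := by
    refine V_dep_rows (μ := μ) (s := s) 0 l fun x hx => h x (rows_mono le_rfl ?_ hx)
    show (0 : ℤ) + (l : ℤ) ≤ (j : ℤ)
    have : (l : ℤ) ≤ j := by exact_mod_cast hle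
    omega
  show Y ≤ _ ↔ Y ≤ _
  rw [h1]

variable [IsProbabilityMeasure μ]

/-- The mean of the overshoot on the event that the luck exceeds `Y`. -/
lemma OO_mean (hμ : Pool.Agent.W_7d29a1_h47.EM μ) {θ Y δ : ℝ} (hδ : 0 < δ) {j : ℕ} (hj : 1 ≤ j)
    (hp : ∫ η, io (Y ≤ V μ s η 0 j) ∂(law μ) ≤ j * δ ^ 2) :
    Integrable (fun η => io (Y ≤ V μ s η 0 j) * OO μ s θ j η) (law μ) ∧
    ∫ η, io (Y ≤ V μ s η 0 j) * OO μ s θ j η ∂(law μ) ≤ j * (δ / 2 * (j + MM μ s (2 * θ) 1)) := by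
  have hiom : Measurable fun η => io (Y ≤ V μ s η 0 j) := measurable_io (meas_hit Y j)
  have hioI : Integrable (fun η => io (Y ≤ V μ s η 0 j)) (law μ) := (Sub_io (meas_hit Y j)).integrable hμ
  have hI : ∀ k ∈ Finset.Icc (0 : ℤ) ((j - 1 : ℕ) : ℤ),
      Integrable (fun η => io (Y ≤ V μ s η 0 j) * Real.exp (θ * V μ s η (((j - 1 : ℕ) : ℤ), k) 1)) (law μ) := by
    intro k _
    refine (int_exp_V (s := s) hμ θ (((j - 1 : ℕ) : ℤ), k) 1).bdd_mul (c := 1) hiom.aestronglyMeasurable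
      (Eventually.of_forall fun η => ?_)
    rw [Real.norm_eq_abs, abs_of_nonneg (io_nonneg _)]
    exact io_le_one _
  have hb : ∀ k ∈ Finset.Icc (0 : ℤ) ((j - 1 : ℕ) : ℤ),
      ∫ η, io (Y ≤ V μ s η 0 j) * Real.exp (θ * V μ s η (((j - 1 : ℕ) : ℤ), k) 1) ∂(law μ) ≤
        δ / 2 * (j + MM μ s (2 * θ) 1) := by
    intro k hk
    have h1 : ∀ η, io (Y ≤ V μ s η 0 j) * Real.exp (θ * V μ s η (((j - 1 : ℕ) : ℤ), k) 1) ≤
        1 / (2 * δ) * io (Y ≤ V μ s η 0 j) + δ / 2 * Real.exp ((2 * θ) * V μ s η (((j - 1 : ℕ) : ℤ), k) 1) := by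
      intro η
      obtain ⟨x, hx⟩ : ∃ x, x = Real.exp (θ * V μ s η (((j - 1 : ℕ) : ℤ), k) 1) := ⟨_, rfl⟩
      have hx2 : Real.exp ((2 * θ) * V μ s η (((j - 1 : ℕ) : ℤ), k) 1) = x ^ 2 := by
        rw [hx, ← Real.exp_nat_mul]
        congr 1
        push_cast
        ring
      rw [hx2, ← hx]
      have hx0 : 0 < x := by rw [hx]; exact Real.exp_pos _
      by_cases hY : Y ≤ V μ s η 0 j
      · rw [io_of hY, one_mul, mul_one]
        have h2 : 0 ≤ (1 - δ * x) ^ 2 / (2 * δ) := by positivity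
        have h3 : (1 - δ * x) ^ 2 / (2 * δ) = 1 / (2 * δ) + δ / 2 * x ^ 2 - x := by
          field_simp
          ring
        linarith
      · rw [io_not hY, zero_mul, mul_zero, zero_add]
        positivity
    have hI2 := int_exp_V (μ := μ) (s := s) hμ (2 * θ) (((j - 1 : ℕ) : ℤ), k) 1
    have h2 := integral_mono (hI k hk) ((hioI.const_mul (1 / (2 * δ))).add (hI2.const_mul (δ / 2))) h1
    have h3 : ∫ η, (1 / (2 * δ) * io (Y ≤ V μ s η 0 j) + δ / 2 * Real.exp ((2 * θ) * V μ s η (((j - 1 : ℕ) : ℤ), k) 1)) ∂(law μ)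
        = 1 / (2 * δ) * ∫ η, io (Y ≤ V μ s η 0 j) ∂(law μ) + δ / 2 * MM μ s (2 * θ) 1 := by
      rw [integral_add (hioI.const_mul _) (hI2.const_mul _), integral_const_mul, integral_const_mul, MM_at]
    have h4 : 1 / (2 * δ) * ∫ η, io (Y ≤ V μ s η 0 j) ∂(law μ) ≤ 1 / (2 * δ) * (j * δ ^ 2) :=
      mul_le_mul_of_nonneg_left hp (by positivity)
    have h5 : 1 / (2 * δ) * (j * δ ^ 2) = δ / 2 * j := by
      field_simp
    have h6 : ∫ η, io (Y ≤ V μ s η 0 j) * Real.exp (θ * V μ s η (((j - 1 : ℕ) : ℤ), k) 1) ∂(law μ) ≤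
        1 / (2 * δ) * ∫ η, io (Y ≤ V μ s η 0 j) ∂(law μ) + δ / 2 * MM μ s (2 * θ) 1 := by
      rw [← h3]
      exact h2
    linarith
  have he : ∀ η, io (Y ≤ V μ s η 0 j) * OO μ s θ j η = ∑ k ∈ Finset.Icc (0 : ℤ) ((j - 1 : ℕ) : ℤ),
      io (Y ≤ V μ s η 0 j) * Real.exp (θ * V μ s η (((j - 1 : ℕ) : ℤ), k) 1) := by
    intro η
    unfold OO
    rw [Finset.mul_sum]
  simp only [he]
  refine ⟨integrable_finsetSum _ hI, ?_⟩
  rw [integral_finsetSum _ hI]
  refine (Finset.sum_le_sum hb).trans (le_of_eq ?_)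
  rw [Finset.sum_const, Int.card_Icc, nsmul_eq_mul]
  congr 1
  have : (((j - 1 : ℕ) : ℤ) + 1 - 0).toNat = j := by omega
  rw [this]

/-- One step of the restart. -/
theorem restart_step (hμ : Pool.Agent.W_7d29a1_h47.EM μ) {θ Y δ S : ℝ} (hθ : 0 ≤ θ) (hY : 0 < Y) (hδ : 0 < δ) {m : ℕ}
    (hp : ∀ j, 1 ≤ j → j ≤ m → ∫ η, io (Y ≤ V μ s η 0 j) ∂(law μ) ≤ j * δ ^ 2)
    (hS : ∀ i ≤ m, MM μ s θ i ≤ S) {i : ℕ} (hi : i ≤ m) :
    MM μ s θ i ≤ Real.exp (θ * Y) * (1 + (m + 1) ^ 3 * (δ / 2 * (m + MM μ s (2 * θ) 1)) * S) := by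
  classical
  obtain ⟨M2, hM2⟩ : ∃ M2, M2 = MM μ s (2 * θ) 1 := ⟨_, rfl⟩
  have hM20 : 0 < M2 := by rw [hM2]; exact MM_pos hμ _ _
  have hS0 : 0 < S := (MM_pos hμ θ 0).trans_le (hS 0 (Nat.zero_le _))
  have hm0 : (0 : ℝ) ≤ m := Nat.cast_nonneg m
  rw [← hM2]
  -- the terms
  obtain ⟨G, hG⟩ : ∃ G : ℕ → Env → ℝ, G = fun j η => FT μ s Y i j η * (Real.exp (θ * Y) * (OO μ s θ j η *
    RR μ s θ j (i - j) η)) := ⟨_, rfl⟩
  have hterm : ∀ j ∈ Finset.range (i + 1), Integrable (G j) (law μ) ∧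
      ∫ η, G j η ∂(law μ) ≤ Real.exp (θ * Y) * ((m + 1) * (m * (δ / 2 * (m + M2))) * S) := by
    intro j hj
    have hji : j ≤ i := by
      have := Finset.mem_range.1 hj
      omega
    have hjm : j ≤ m := hji.trans hi
    have hjm' : (j : ℝ) ≤ m := by exact_mod_cast hjm
    rcases Nat.eq_zero_or_pos j with h0 | h0
    · subst h0
      have e : ∀ η, G 0 η = 0 := by
        intro η
        rw [hG]
        have : FT μ s Y i 0 η = 0 := by
          refine io_not fun h => ?_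
          have h1 : Y ≤ V μ s η 0 0 := h.1
          rw [V_zero] at h1
          linarith
        show FT μ s Y i 0 η * _ = 0
        rw [this, zero_mul]
      have e' : G 0 = fun _ => 0 := funext e
      rw [e']
      refine ⟨integrable_zero _ _ _, ?_⟩
      rw [integral_zero]
      positivity
    obtain ⟨o1, o2⟩ := OO_mean (μ := μ) (s := s) (θ := θ) (Y := Y) hμ hδ h0 (hp j h0 hjm)
    rw [← hM2] at o2
    have hOm : Measurable (OO μ s θ j) := by
      unfold OO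
      exact Finset.measurable_sum _ fun k _ => Real.measurable_exp.comp ((measurable_V _ _).const_mul θ)
    obtain ⟨f, hf⟩ : ∃ f : Env → ℝ, f = fun η => FT μ s Y i j η * OO μ s θ j η := ⟨_, rfl⟩
    have hfm : Measurable f := by rw [hf]; exact (FT_meas Y hj).mul hOm
    have hf0 : ∀ η, 0 ≤ f η := fun η => by rw [hf]; exact mul_nonneg (io_nonneg _) (OO_nonneg _ _ _)
    have hfle : ∀ η, f η ≤ io (Y ≤ V μ s η 0 j) * OO μ s θ j η := by
      intro η
      rw [hf]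
      refine mul_le_mul_of_nonneg_right ?_ (OO_nonneg _ _ _)
      show FT μ s Y i j η ≤ _
      unfold FT
      by_cases h : Fi (Finset.range (i + 1)) (fun l => l) (fun l => Y ≤ V μ s η 0 l) j
      · rw [io_of h, io_of h.1]
      · rw [io_not h]
        exact io_nonneg _
    have hfI : Integrable f (law μ) := o1.mono' hfm.aestronglyMeasurable (Eventually.of_forall fun η => by
      rw [Real.norm_eq_abs, abs_of_nonneg (hf0 η)]
      exact hfle η)
    have hfd : DependsOn f (rows 0 j) := by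
      intro η η' h
      rw [hf]
      have e1 : FT μ s Y i j η = FT μ s Y i j η' := FT_dep Y hj h
      have e2 : OO μ s θ j η = OO μ s θ j η' := by
        unfold OO
        refine Finset.sum_congr rfl fun k _ => ?_
        have e3 : V μ s η (((j - 1 : ℕ) : ℤ), k) 1 = V μ s η' (((j - 1 : ℕ) : ℤ), k) 1 := by
          refine V_dep_rows (μ := μ) (s := s) _ _ fun x hx => h x (rows_mono ?_ ?_ hx)
          · show (0 : ℤ) ≤ ((j - 1 : ℕ) : ℤ)
            exact Int.natCast_nonneg _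
          · show ((j - 1 : ℕ) : ℤ) + ((1 : ℕ) : ℤ) ≤ (j : ℤ)
            omega
        rw [e3]
      show FT μ s Y i j η * OO μ s θ j η = FT μ s Y i j η' * OO μ s θ j η'
      rw [e1, e2]
    have hk : ∀ k ∈ Finset.Icc (0 : ℤ) (j : ℤ),
        Integrable (fun η => f η * Real.exp (θ * V μ s η ((j : ℤ), k) (i - j))) (law μ) ∧
        ∫ η, f η * Real.exp (θ * V μ s η ((j : ℤ), k) (i - j)) ∂(law μ) = (∫ η, f η ∂(law μ)) * MM μ s θ (i - j) := by
      intro k _
      have hgm : Measurable fun η => Real.exp (θ * V μ s η ((j : ℤ), k) (i - j)) :=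
        Real.measurable_exp.comp ((measurable_V _ _).const_mul θ)
      have hgd : DependsOn (fun η => Real.exp (θ * V μ s η ((j : ℤ), k) (i - j))) (rows j (j + (i - j : ℕ))) := by
        intro η η' h
        have e3 : V μ s η ((j : ℤ), k) (i - j) = V μ s η' ((j : ℤ), k) (i - j) :=
          V_dep_rows (μ := μ) (s := s) _ _ h
        show Real.exp (θ * _) = Real.exp (θ * _)
        rw [e3]
      refine ⟨?_, ?_⟩
      · have hO2 : Sub fun η => ∑ k ∈ Finset.Icc (0 : ℤ) ((j - 1 : ℕ) : ℤ), |θ * V μ s η (((j - 1 : ℕ) : ℤ), k) 1| :=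
          Sub.sum _ fun k _ => ((Sub_V _ _).const_mul θ).abs
        have h3 : Integrable (fun η => ((j : ℝ) * Real.exp (∑ k ∈ Finset.Icc (0 : ℤ) ((j - 1 : ℕ) : ℤ),
            |θ * V μ s η (((j - 1 : ℕ) : ℤ), k) 1|)) * Real.exp (θ * V μ s η ((j : ℤ), k) (i - j))) (law μ) := by
          have h4 := ((hO2.add ((Sub_V (μ := μ) (s := s) ((j : ℤ), k) (i - j)).const_mul θ)).exp_int hμ).const_mul (j : ℝ)
          refine h4.congr (Eventually.of_forall fun η => ?_)
          show (j : ℝ) * Real.exp (_ + _) = _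
          rw [Real.exp_add]
          exact (mul_assoc _ _ _).symm
        refine h3.mono' (hfm.mul hgm).aestronglyMeasurable (Eventually.of_forall fun η => ?_)
        rw [Real.norm_eq_abs, abs_of_nonneg (mul_nonneg (hf0 η) (Real.exp_pos _).le)]
        refine mul_le_mul_of_nonneg_right ?_ (Real.exp_pos _).le
        refine (hfle η).trans ?_
        have h5 : OO μ s θ j η ≤ (j : ℝ) * Real.exp (∑ k ∈ Finset.Icc (0 : ℤ) ((j - 1 : ℕ) : ℤ),
            |θ * V μ s η (((j - 1 : ℕ) : ℤ), k) 1|) := by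
          unfold OO
          have h6 : ∀ k ∈ Finset.Icc (0 : ℤ) ((j - 1 : ℕ) : ℤ), Real.exp (θ * V μ s η (((j - 1 : ℕ) : ℤ), k) 1) ≤
              Real.exp (∑ k ∈ Finset.Icc (0 : ℤ) ((j - 1 : ℕ) : ℤ), |θ * V μ s η (((j - 1 : ℕ) : ℤ), k) 1|) := by
            intro k hk
            refine Real.exp_le_exp.2 ((le_abs_self _).trans ?_)
            exact Finset.single_le_sum (f := fun k => |θ * V μ s η (((j - 1 : ℕ) : ℤ), k) 1|)
              (fun k _ => abs_nonneg _) hk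
          refine (Finset.sum_le_sum h6).trans (le_of_eq ?_)
          rw [Finset.sum_const, Int.card_Icc, nsmul_eq_mul]
          congr 1
          have : (((j - 1 : ℕ) : ℤ) + 1 - 0).toNat = j := by omega
          rw [this]
        have h7 := mul_le_mul_of_nonneg_right (io_le_one (Y ≤ V μ s η 0 j)) (OO_nonneg (μ := μ) (s := s) η θ j)
        linarith
      · rw [integral_indep hfm hgm hfd hgd (rows_disj le_rfl), MM_at]
    have he : ∀ η, G j η = Real.exp (θ * Y) * ∑ k ∈ Finset.Icc (0 : ℤ) (j : ℤ),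
        f η * Real.exp (θ * V μ s η ((j : ℤ), k) (i - j)) := by
      intro η
      rw [hG, hf]
      show FT μ s Y i j η * (Real.exp (θ * Y) * (OO μ s θ j η * RR μ s θ j (i - j) η)) = _
      unfold RR
      rw [← Finset.mul_sum]
      ring
    have he' : G j = fun η => Real.exp (θ * Y) * ∑ k ∈ Finset.Icc (0 : ℤ) (j : ℤ),
        f η * Real.exp (θ * V μ s η ((j : ℤ), k) (i - j)) := funext he
    rw [he']
    refine ⟨(integrable_finsetSum _ fun k hk' => (hk k hk').1).const_mul _, ?_⟩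
    rw [integral_const_mul, integral_finsetSum _ fun k hk' => (hk k hk').1]
    refine mul_le_mul_of_nonneg_left ?_ (Real.exp_pos _).le
    rw [Finset.sum_congr rfl fun k hk' => (hk k hk').2, Finset.sum_const, Int.card_Icc, nsmul_eq_mul]
    have hc : (((j : ℤ) + 1 - 0).toNat : ℝ) = (j : ℝ) + 1 := by
      have : ((j : ℤ) + 1 - 0).toNat = j + 1 := by omega
      rw [this]
      push_cast
      ring
    rw [hc]
    have h1 : ∫ η, f η ∂(law μ) ≤ j * (δ / 2 * (j + M2)) := (integral_mono hfI o1 hfle).trans o2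
    have h1' : 0 ≤ ∫ η, f η ∂(law μ) := integral_nonneg hf0
    have h2 : MM μ s θ (i - j) ≤ S := hS _ ((Nat.sub_le i j).trans hi)
    have h2' := (MM_pos (s := s) hμ θ (i - j)).le
    have h3 : (j : ℝ) * (δ / 2 * (j + M2)) ≤ m * (δ / 2 * (m + M2)) := by
      have hj0 : (0 : ℝ) ≤ j := Nat.cast_nonneg j
      gcongr
    have h4 : (∫ η, f η ∂(law μ)) * MM μ s θ (i - j) ≤ (m * (δ / 2 * (m + M2))) * S :=
      mul_le_mul (h1.trans h3) h2 h2' (by positivity)
    have h5 : 0 ≤ (m * (δ / 2 * (m + M2))) * S := by positivity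
    have hj0 : (0 : ℝ) ≤ j := Nat.cast_nonneg j
    calc ((j : ℝ) + 1) * ((∫ η, f η ∂(law μ)) * MM μ s θ (i - j)) ≤ ((j : ℝ) + 1) * ((m * (δ / 2 * (m + M2))) * S) :=
          mul_le_mul_of_nonneg_left h4 (by positivity)
      _ ≤ ((m : ℝ) + 1) * ((m * (δ / 2 * (m + M2))) * S) := mul_le_mul_of_nonneg_right (by linarith) h5
      _ = _ := by ring
  have h1 : MM μ s θ i ≤ ∫ η, (Real.exp (θ * Y) + ∑ j ∈ Finset.range (i + 1), G j η) ∂(law μ) := by
    refine integral_mono (int_exp_V hμ θ 0 i)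
      ((integrable_const _).add (integrable_finsetSum _ fun j hj => (hterm j hj).1)) fun η => ?_
    rw [hG]
    exact exp_V_hit η hθ hY i
  rw [integral_add (integrable_const _) (integrable_finsetSum _ fun j hj => (hterm j hj).1), integral_const,
    probReal_univ, one_smul, integral_finsetSum _ fun j hj => (hterm j hj).1] at h1
  have h2 := Finset.sum_le_sum fun j hj => (hterm j hj).2
  rw [Finset.sum_const, Finset.card_range, nsmul_eq_mul] at h2
  have h3 : ((i + 1 : ℕ) : ℝ) ≤ (m : ℝ) + 1 := by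
    have : (i : ℝ) ≤ m := by exact_mod_cast hi
    push_cast
    linarith
  have h4 : 0 ≤ Real.exp (θ * Y) * ((m + 1) * (m * (δ / 2 * (m + M2))) * S) := by positivity
  have h5 : ((i + 1 : ℕ) : ℝ) * (Real.exp (θ * Y) * ((m + 1) * (m * (δ / 2 * (m + M2))) * S)) ≤
      ((m : ℝ) + 1) * (Real.exp (θ * Y) * ((m + 1) * (m * (δ / 2 * (m + M2))) * S)) :=
    mul_le_mul_of_nonneg_right h3 h4
  have h6 : ((m : ℝ) + 1) * (Real.exp (θ * Y) * ((m + 1) * (m * (δ / 2 * (m + M2))) * S)) ≤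
      Real.exp (θ * Y) * ((m + 1) ^ 3 * (δ / 2 * (m + M2)) * S) := by
    have h7 : 0 ≤ Real.exp (θ * Y) * ((m + 1) ^ 2 * (δ / 2 * (m + M2)) * S) := by positivity
    have h8 : Real.exp (θ * Y) * ((m + 1) ^ 3 * (δ / 2 * (m + M2)) * S) -
        ((m : ℝ) + 1) * (Real.exp (θ * Y) * ((m + 1) * (m * (δ / 2 * (m + M2))) * S)) =
        Real.exp (θ * Y) * ((m + 1) ^ 2 * (δ / 2 * (m + M2)) * S) := by ring
    linarith
  calc MM μ s θ i ≤ Real.exp (θ * Y) + Real.exp (θ * Y) * ((m + 1) ^ 3 * (δ / 2 * (m + M2)) * S) := by linarith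
    _ = _ := by ring

/-- The exponential moment of the luck up to the time `m`, if large luck is rare up to the time `m`. -/
theorem restart_log (hμ : Pool.Agent.W_7d29a1_h47.EM μ) {θ Y δ : ℝ} (hθ : 0 ≤ θ) (hY : 0 < Y) (hδ : 0 < δ) {m : ℕ}
    (hp : ∀ j, 1 ≤ j → j ≤ m → ∫ η, io (Y ≤ V μ s η 0 j) ∂(law μ) ≤ j * δ ^ 2)
    (hsmall : Real.exp (θ * Y) * ((m + 1) ^ 3 * (δ / 2 * (m + MM μ s (2 * θ) 1))) ≤ 1 / 2) {i : ℕ} (hi : i ≤ m) :
    MM μ s θ i ≤ 2 * Real.exp (θ * Y) := by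
  obtain ⟨i0, hi0, hmax⟩ := Finset.exists_max_image (Finset.range (m + 1)) (fun i => MM μ s θ i) ⟨0, by simp⟩
  have h1 := restart_step (μ := μ) (s := s) hμ hθ hY hδ hp (S := MM μ s θ i0)
    (fun i hi => hmax i (Finset.mem_range.2 (by omega))) (i := i0) (by
      have := Finset.mem_range.1 hi0
      omega)
  have h2 := hmax i (Finset.mem_range.2 (by omega))
  have h3 := (MM_pos (s := s) hμ θ i0).le
  have h4 := mul_le_mul_of_nonneg_right hsmall h3
  refine h2.trans ?_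
  nlinarith

end

end Pool.Agent.W_7d29a1_h18
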