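import Pool.Agent.W_7d29a1_h42.LuckFluct
import Pool.Agent.W_7d29a1_h18.PlA

/-!
Variance luck (MP_7d29a1_pr, scaling law): a function `F` of independent variables which has the properties of a free energy has
exponential moments at least `exp (θ E F + c θ ^ 2 Var F)`. (helper18)
-/

namespace Pool.Agent.W_7d29a1_h18

open MeasureTheory Set Pool.Agent.W_7d29a1_h42

noncomputable section

variable {ν : Measure ℝ} [IsProbabilityMeasure ν]

/-- Exponential moments of all orders. -/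
def XM (ν : Measure ℝ) : Prop := ∀ t : ℝ, Integrable (fun x : ℝ => Real.exp (t * |x|)) ν

lemma int_exp_sum (hE : XM ν) (N : ℕ) (t : ℝ) : Integrable (fun x : Fin N → ℝ => Real.exp (t * ∑ i, |x i|)) (PN ν N) := by
  have h1 : Integrable (fun x : Fin N → ℝ => ∏ i, Real.exp (t * |x i|)) (Measure.pi fun _ : Fin N => ν) :=
    Integrable.fintype_prod (μ := fun _ : Fin N => ν) (f := fun _ : Fin N => fun y : ℝ => Real.exp (t * |y|)) fun _ => hE t
  refine h1.congr (Filter.Eventually.of_forall fun x => ?_)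
  show ∏ i, Real.exp (t * |x i|) = Real.exp (t * ∑ i, |x i|)
  rw [← Real.exp_sum, Finset.mul_sum]

lemma LG.smul' {N : ℕ} {h : (Fin N → ℝ) → ℝ} (hh : LG N h) (r : ℝ) : LG N fun x => r * h x := by
  obtain ⟨hm, C, hC, hb⟩ := hh
  refine ⟨hm.const_mul r, |r| * C, by positivity, fun x => ?_⟩
  rw [abs_mul, mul_assoc]
  exact mul_le_mul_of_nonneg_left (hb x) (abs_nonneg r)

lemma LG.exp_int (hE : XM ν) {N : ℕ} {h : (Fin N → ℝ) → ℝ} (hh : LG N h) :
    Integrable (fun x => Real.exp (h x)) (PN ν N) := by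
  obtain ⟨hm, C, hC, hb⟩ := hh
  refine ((int_exp_sum hE N C).const_mul (Real.exp C)).mono' (Real.measurable_exp.comp hm).aestronglyMeasurable
    (Filter.Eventually.of_forall fun x => ?_)
  rw [Real.norm_eq_abs, abs_of_pos (Real.exp_pos _), ← Real.exp_add]
  refine Real.exp_le_exp.2 ?_
  have := (le_abs_self (h x)).trans (hb x)
  linarith

/-- The logarithm of the exponential moment over the coordinates after the first one. -/
def LL (ν : Measure ℝ) {N : ℕ} (F : (Fin (N + 1) → ℝ) → ℝ) (y : ℝ) : ℝ :=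
  Real.log (∫ z, Real.exp (F (cn y z)) ∂(PN ν N))

lemma LL_pos (hE : XM ν) {N : ℕ} {F : (Fin (N + 1) → ℝ) → ℝ} (hF : LG (N + 1) F) (y : ℝ) :
    0 < ∫ z, Real.exp (F (cn y z)) ∂(PN ν N) := integral_exp_pos (LG.exp_int hE (hF.sec y))

lemma LL_int (hν : FM ν) (hE : XM ν) {N : ℕ} {F : (Fin (N + 1) → ℝ) → ℝ} (hF : LG (N + 1) F) :
    Integrable (LL ν F) ν := by
  have hF' := hF
  obtain ⟨hm, C, hC, hb⟩ := hF'
  obtain ⟨k1, hk1⟩ : ∃ k1, k1 = ∫ z : Fin N → ℝ, Real.exp (-C * ∑ i, |z i|) ∂(PN ν N) := ⟨_, rfl⟩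
  obtain ⟨k2, hk2⟩ : ∃ k2, k2 = ∫ z : Fin N → ℝ, Real.exp (C * ∑ i, |z i|) ∂(PN ν N) := ⟨_, rfl⟩
  have hk1p : 0 < k1 := by rw [hk1]; exact integral_exp_pos (int_exp_sum hE N (-C))
  have hk2p : 0 < k2 := by rw [hk2]; exact integral_exp_pos (int_exp_sum hE N C)
  have hmeas : Measurable (LL ν F) := by
    have h1 : Measurable fun y : ℝ => ∫ z, (fun x : Fin (N + 1) → ℝ => Real.exp (F x)) (cn y z) ∂(PN ν N) :=
      measurable_int_cn (ν := ν) (h := fun x => Real.exp (F x)) (Real.measurable_exp.comp hm)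
    exact Real.measurable_log.comp h1
  have habs : Integrable (fun y : ℝ => (|Real.log k1| + |Real.log k2| + C) + C * |y|) ν :=
    (integrable_const _).add (hν.abs.const_mul C)
  refine habs.mono' hmeas.aestronglyMeasurable (Filter.Eventually.of_forall fun y => ?_)
  have hs : ∀ z : Fin N → ℝ, |F (cn y z)| ≤ C * (1 + |y|) + C * ∑ i, |z i| := by
    intro z
    have h1 := hb (cn y z)
    rw [Fin.sum_univ_succ] at h1
    simp only [cn_zero, cn_succ] at h1
    linarith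
  have hI := LG.exp_int hE (hF.sec y)
  have hup : ∫ z, Real.exp (F (cn y z)) ∂(PN ν N) ≤ Real.exp (C * (1 + |y|)) * k2 := by
    rw [hk2, ← integral_const_mul]
    refine integral_mono hI ((int_exp_sum hE N C).const_mul _) fun z => ?_
    show Real.exp (F (cn y z)) ≤ Real.exp (C * (1 + |y|)) * Real.exp (C * ∑ i, |z i|)
    rw [← Real.exp_add]
    refine Real.exp_le_exp.2 ?_
    have := (le_abs_self _).trans (hs z)
    exact this
  have hlo : Real.exp (-(C * (1 + |y|))) * k1 ≤ ∫ z, Real.exp (F (cn y z)) ∂(PN ν N) := by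
    rw [hk1, ← integral_const_mul]
    refine integral_mono ((int_exp_sum hE N (-C)).const_mul _) hI fun z => ?_
    show Real.exp (-(C * (1 + |y|))) * Real.exp (-C * ∑ i, |z i|) ≤ Real.exp (F (cn y z))
    rw [← Real.exp_add]
    refine Real.exp_le_exp.2 ?_
    have h1 := neg_abs_le (F (cn y z))
    have h2 := hs z
    linarith
  have hp := LL_pos hE hF y
  have e1 := Real.log_le_log hp hup
  have e2 := Real.log_le_log (mul_pos (Real.exp_pos _) hk1p) hlo
  rw [Real.log_mul (Real.exp_pos _).ne' hk2p.ne', Real.log_exp] at e1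
  rw [Real.log_mul (Real.exp_pos _).ne' hk1p.ne', Real.log_exp] at e2
  rw [Real.norm_eq_abs]
  have e3 : LL ν F y = Real.log (∫ z, Real.exp (F (cn y z)) ∂(PN ν N)) := rfl
  rw [e3, abs_le]
  have a1 := neg_abs_le (Real.log k1)
  have a2 := le_abs_self (Real.log k2)
  have a3 := abs_nonneg (Real.log k1)
  have a4 := abs_nonneg (Real.log k2)
  constructor <;> nlinarith

/-- The induction. -/
theorem varkey (hν : FM ν) (hE : XM ν) {xm xp c2 M : ℝ} (hx : xm < xp) (hq0 : 0 < ν.real (Ici xp)) {κ : ℝ} (hκ0 : 0 ≤ κ)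
    (hκ1 : κ ≤ 1 / 2) (hκ2 : κ * (ν.real (Iic xm) * (1 + ν.real (Iic xm) / ν.real (Ici xp))) ≤ (xp - xm) * c2 / 2)
    {θ : ℝ} (hθ0 : 0 ≤ θ) (hθ1 : θ ≤ 1) (N : ℕ) :
    ∀ (Go Fp : (Fin N → ℝ) → ℝ) (g : Fin N → (Fin N → ℝ) → ℝ) (A : ℝ), LG N Go → LG N Fp →
      GD ν xm 1 c2 N g → A + N ≤ M → (∀ x y, Go x + ∑ i, g i x * (y i - x i) ≤ Fp y) →
      θ * ∫ x, Go x ∂(PN ν N) + (κ * ((xp - xm) * c2) / 2) * θ ^ 2 * IS ν M N g A ≤
        Real.log (∫ y, Real.exp (θ * Fp y) ∂(PN ν N)) := by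
  obtain ⟨m, hm⟩ : ∃ m, m = ν.real (Iic xm) := ⟨_, rfl⟩
  obtain ⟨q, hq⟩ : ∃ q, q = ν.real (Ici xp) := ⟨_, rfl⟩
  obtain ⟨ρ, hρ⟩ : ∃ ρ, ρ = m / q := ⟨_, rfl⟩
  have hq0' : 0 < q := by rw [hq]; exact hq0
  have hm0 : 0 ≤ m := by rw [hm]; exact measureReal_nonneg
  have hρ0 : 0 ≤ ρ := by rw [hρ]; positivity
  obtain ⟨cp, hcp⟩ : ∃ cp, cp = (xp - xm) * c2 := ⟨_, rfl⟩
  rw [← hm, ← hq, ← hρ, ← hcp] at hκ2
  rw [← hcp]
  induction N with
  | zero =>
    intro Go Fp g A hGo hFp hg hA h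
    have hun : ∀ x : Fin 0 → ℝ, x = default := fun x => Subsingleton.elim _ _
    have e1 : ∫ x, Go x ∂(PN ν 0) = Go default := by
      have : Go = fun _ => Go default := by
        funext x
        rw [hun x]
      rw [this]
      simp
    have e2 : ∫ y, Real.exp (θ * Fp y) ∂(PN ν 0) = Real.exp (θ * Fp default) := by
      have : (fun y => Real.exp (θ * Fp y)) = fun _ => Real.exp (θ * Fp default) := by
        funext x
        rw [hun x]
      rw [this]
      simp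
    rw [e1, e2, Real.log_exp]
    simp only [IS, mul_zero, add_zero]
    have h1 := h default default
    simp only [Finset.univ_eq_empty, Finset.sum_empty, add_zero] at h1
    exact mul_le_mul_of_nonneg_left h1 hθ0
  | succ N ih =>
    intro Go Fp g A hGo hFp hg hA h
    obtain ⟨a, ha⟩ : ∃ a, a = am ν g := ⟨_, rfl⟩
    have ha0 : 0 ≤ a := by rw [ha]; exact am_nonneg hg
    have ha1 : a ≤ 1 := by rw [ha]; exact am_le hg
    have ha2 : a ^ 2 ≤ 1 := pow_le_one₀ ha0 ha1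
    have hA' : A + a ^ 2 + N ≤ M := by
      push_cast at hA
      linarith
    have hcase : A + a ^ 2 ≤ M := by
      have : (0 : ℝ) ≤ N := Nat.cast_nonneg N
      linarith
    obtain ⟨u, hu⟩ : ∃ u, u = κ * θ * a := ⟨_, rfl⟩
    have hu0 : 0 ≤ u := by rw [hu]; positivity
    have hu1 : u ≤ 1 / 2 := by
      rw [hu]
      have h1 : κ * θ ≤ 1 / 2 := by nlinarith
      have h2 : 0 ≤ κ * θ := mul_nonneg hκ0 hθ0
      nlinarith
    -- the functions
    obtain ⟨G0, hG0⟩ : ∃ G0 : ℝ → ℝ, G0 = fun x => ∫ z, Go (cn x z) ∂(PN ν N) := ⟨_, rfl⟩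
    obtain ⟨γ0, hγ0⟩ : ∃ γ0 : ℝ → ℝ, γ0 = fun x => ∫ z, g 0 (cn x z) ∂(PN ν N) := ⟨_, rfl⟩
    obtain ⟨S, hS⟩ : ∃ S : ℝ → ℝ, S = fun x => IS ν M N (sg g x) (A + a ^ 2) := ⟨_, rfl⟩
    obtain ⟨G, hG⟩ : ∃ G : ℝ → ℝ, G = fun x => θ * G0 x + (κ * cp / 2) * θ ^ 2 * S x := ⟨_, rfl⟩
    obtain ⟨γ, hγ⟩ : ∃ γ : ℝ → ℝ, γ = fun x => θ * γ0 x := ⟨_, rfl⟩
    obtain ⟨k, hk⟩ : ∃ k : ℝ → ℝ, k = LL ν fun x => θ * Fp x := ⟨_, rfl⟩
    have hFθ : LG (N + 1) fun x => θ * Fp x := LG.smul' hFp θ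
    have hG0int : Integrable G0 ν := by rw [hG0]; exact int_cn' (hGo.integrable hν)
    have hγ0int : Integrable γ0 ν := by rw [hγ0]; exact int_cn' (hg.int 0)
    have hSint : Integrable S ν := by rw [hS]; exact IS_sec_int hg.meas hcase
    have hGint : Integrable G ν := by rw [hG]; exact (hG0int.const_mul θ).add (hSint.const_mul _)
    have hγint : Integrable γ ν := by rw [hγ]; exact hγ0int.const_mul θ
    have hkint : Integrable k ν := by rw [hk]; exact LL_int hν hE hFθ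
    have hγnn : ∀ x, 0 ≤ γ x := fun x => by
      rw [hγ, hγ0]
      exact mul_nonneg hθ0 (integral_nonneg fun z => hg.nonneg _ _)
    have hmain : ∀ x y, G x + γ x * (y - x) + 0 * ((0 : ℝ) - 0 * rr xm xp u ρ y) ≤ k y := by
      intro x y
      have hLG : LG N fun z => Go (cn x z) + g 0 (cn x z) * (y - x) := by
        refine (hGo.sec x).add ?_
        have h2 : LG N fun z => g 0 (cn x z) * (fun _ => y - x) z :=
          LG.mul_bdd (LG.const N (y - x)) ((hg.meas 0).comp (measurable_cn_right x)) (B := 1)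
            (fun z => by
              rw [abs_of_nonneg (hg.nonneg _ _)]
              exact hg.le _ _)
        exact h2
      have h2 := ih (fun z => Go (cn x z) + g 0 (cn x z) * (y - x)) (fun z => Fp (cn y z)) (sg g x)
        (A + a ^ 2) hLG (hFp.sec y) (hg.sec x) hA' (fun z z' => by
          have h3 := h (cn x z) (cn y z')
          rw [Fin.sum_univ_succ] at h3
          simp only [cn_zero, cn_succ] at h3
          simp only [sg]
          linarith)
      have h3 : ∫ z, (Go (cn x z) + g 0 (cn x z) * (y - x)) ∂(PN ν N) = G0 x + γ0 x * (y - x) := by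
        rw [integral_add ((hGo.sec x).integrable hν), integral_mul_const, hG0, hγ0]
        refine Integrable.mul_const ?_ _
        refine (integrable_const (1 : ℝ)).mono' ((hg.meas 0).comp (measurable_cn_right x)).aestronglyMeasurable
          (Filter.Eventually.of_forall fun z => ?_)
        rw [Real.norm_eq_abs, abs_of_nonneg (hg.nonneg _ _)]
        exact hg.le _ _
      rw [h3] at h2
      have h4 : k y = Real.log (∫ z, Real.exp (θ * Fp (cn y z)) ∂(PN ν N)) := by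
        rw [hk]
        rfl
      have h5 : S x = IS ν M N (sg g x) (A + a ^ 2) := by rw [hS]
      rw [← h5] at h2
      rw [h4, hG, hγ]
      show θ * G0 x + (κ * cp / 2) * θ ^ 2 * S x + θ * γ0 x * (y - x) +
        0 * (0 - 0 * rr xm xp u ρ y) ≤ _
      linarith
    have hh : c2 * (θ * a) ≤ ∫ x in Iic xm, γ x ∂ν := by
      have hmeas : Measurable fun p : ℝ × (Fin N → ℝ) => g 0 (cn p.1 p.2) :=
        (hg.meas 0).comp measurable_cn
      have hint : Integrable (fun p : ℝ × (Fin N → ℝ) => g 0 (cn p.1 p.2)) (ν.prod (PN ν N)) := by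
        refine (integrable_const (1 : ℝ)).mono' hmeas.aestronglyMeasurable
          (Filter.Eventually.of_forall fun p => ?_)
        rw [Real.norm_eq_abs, abs_of_nonneg (hg.nonneg _ _)]
        exact hg.le _ _
      have hint2 : Integrable (fun p : ℝ × (Fin N → ℝ) => g 0 (cn p.1 p.2))
          ((ν.restrict (Iic xm)).prod (PN ν N)) := by
        refine (integrable_const (1 : ℝ)).mono' hmeas.aestronglyMeasurable
          (Filter.Eventually.of_forall fun p => ?_)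
        rw [Real.norm_eq_abs, abs_of_nonneg (hg.nonneg _ _)]
        exact hg.le _ _
      have h2 : a = ∫ z, ∫ x, g 0 (cn x z) ∂ν ∂(PN ν N) := by
        rw [ha, am, int_cn (hg.int 0)]
        exact integral_integral_swap hint
      have h3 : ∫ x in Iic xm, γ0 x ∂ν = ∫ z, ∫ x in Iic xm, g 0 (cn x z) ∂ν ∂(PN ν N) := by
        rw [hγ0]
        exact integral_integral_swap hint2
      have h5 : c2 * a ≤ ∫ x in Iic xm, γ0 x ∂ν := by
        rw [h2, h3, ← integral_const_mul]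
        refine integral_mono (hint.integral_prod_right.const_mul c2) hint2.integral_prod_right fun z => ?_
        have h4 := hg.har 0 (cn 0 z)
        simp only [update_cn_zero] at h4
        exact h4
      rw [hγ, integral_const_mul]
      have h6 := mul_le_mul_of_nonneg_left h5 hθ0
      linarith
    have hstep := one_step (ν := ν) (c2 := c2) (a := θ * a) (cc := 0) (P := 0) (S := fun _ => (0 : ℝ)) hx hm hq hq0' hρ
      hu0 hu1 hGint hγint (integrable_const (0 : ℝ)) hkint hγnn hmain hh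
    simp only [mul_zero, add_zero, zero_mul, sub_zero] at hstep
    -- Gibbs
    obtain ⟨r1, r2⟩ := rr_int (ν := ν) (u := u) hm hq hq0' hρ
    obtain ⟨s1, s2⟩ := rr_sq (ν := ν) (u := u) hx hm hq hq0' hρ
    have hrpos : ∀ y, 0 < rr xm xp u ρ y := fun y => lt_of_lt_of_le (by norm_num) (rr_ge hx hρ0 hu0 hu1 y)
    have hrle : ∀ y, rr xm xp u ρ y ≤ 1 + ρ := rr_le hx hρ0 hu0 hu1
    have hrk : Integrable (fun y => rr xm xp u ρ y * k y) ν := by
      refine hkint.bdd_mul (c := 1 + ρ) (rr_meas xm xp u ρ).aestronglyMeasurable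
        (Filter.Eventually.of_forall fun y => ?_)
      rw [Real.norm_eq_abs, abs_of_pos (hrpos y)]
      exact hrle y
    have hrlog : Integrable (fun y => rr xm xp u ρ y * Real.log (rr xm xp u ρ y)) ν := by
      refine Integrable.of_bound (C := 1 + (1 + ρ) ^ 2)
        ((rr_meas xm xp u ρ).mul (Real.measurable_log.comp (rr_meas xm xp u ρ))).aestronglyMeasurable
        (Filter.Eventually.of_forall fun y => ?_)
      have h4 := hrpos y
      have h5 := hrle y
      have h6 : Real.log (rr xm xp u ρ y) ≤ rr xm xp u ρ y - 1 := Real.log_le_sub_one_of_pos h4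
      have h7 : 1 - (rr xm xp u ρ y)⁻¹ ≤ Real.log (rr xm xp u ρ y) := Real.one_sub_inv_le_log_of_pos h4
      have h8 : rr xm xp u ρ y * (1 - (rr xm xp u ρ y)⁻¹) = rr xm xp u ρ y - 1 := by
        rw [mul_sub, mul_one, mul_inv_cancel₀ h4.ne']
      have h9 := mul_le_mul_of_nonneg_left h7 h4.le
      have h10 := mul_le_mul_of_nonneg_left h6 h4.le
      rw [h8] at h9
      have h11 : rr xm xp u ρ y ^ 2 ≤ (1 + ρ) ^ 2 := pow_le_pow_left₀ h4.le h5 2
      rw [Real.norm_eq_abs, abs_le]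
      constructor
      · nlinarith
      · nlinarith
    have hexpk : ∀ y, Real.exp (k y) = ∫ z, Real.exp (θ * Fp (cn y z)) ∂(PN ν N) := by
      intro y
      rw [hk]
      exact Real.exp_log (LL_pos hE hFθ y)
    have hexp : Integrable (fun y => Real.exp (k y)) ν := by
      simp only [hexpk]
      exact int_cn' (h := fun x => Real.exp (θ * Fp x)) (LG.exp_int hE hFθ)
    have hgibbs := gibbs (P := ν) (D := rr xm xp u ρ) (H := k) hrpos r1 r2 hrk hrlog hexp
    have hrhs : ∫ y, Real.exp (k y) ∂ν = ∫ y, Real.exp (θ * Fp y) ∂(PN ν (N + 1)) := by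
      simp only [hexpk]
      rw [int_cn (h := fun x => Real.exp (θ * Fp x)) (LG.exp_int hE hFθ)]
    rw [hrhs] at hgibbs
    have hent : ∫ y, rr xm xp u ρ y * Real.log (rr xm xp u ρ y) ∂ν ≤ u ^ 2 * (m * (1 + ρ)) := by
      rw [← s2]
      refine integral_mono hrlog s1 fun y => ?_
      exact mul_le_mul_of_nonneg_left (Real.log_le_sub_one_of_pos (hrpos y)) (hrpos y).le
    -- conclusion
    have hGo' : ∫ x, Go x ∂(PN ν (N + 1)) = ∫ x, G0 x ∂ν := by
      rw [int_cn (hGo.integrable hν), hG0]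
    have hGi : ∫ x, G x ∂ν = θ * ∫ x, G0 x ∂ν + (κ * cp / 2) * θ ^ 2 * ∫ x, S x ∂ν := by
      rw [hG, integral_add (hG0int.const_mul θ) (hSint.const_mul _), integral_const_mul, integral_const_mul]
    have hIS : IS ν M (N + 1) g A = a ^ 2 + ∫ x, S x ∂ν := by
      simp only [IS]
      rw [← ha, if_pos hcase, hS]
    rw [hIS, hGo']
    rw [hGi] at hstep
    have h7 : u * (xp - xm) * (c2 * (θ * a)) = κ * cp * (θ ^ 2 * a ^ 2) := by rw [hu, hcp]; ring
    have h8 : u ^ 2 * (m * (1 + ρ)) ≤ κ * cp / 2 * (θ ^ 2 * a ^ 2) := by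
      have h9 : 0 ≤ θ ^ 2 * a ^ 2 := by positivity
      have h10 := mul_le_mul_of_nonneg_left hκ2 (mul_nonneg hκ0 h9)
      rw [hu]
      nlinarith
    rw [h7] at hstep
    nlinarith

/-- The energy is at most the number of coordinates. -/
lemma IT_zero {xm c2 M : ℝ} (N : ℕ) : ∀ (g : Fin N → (Fin N → ℝ) → ℝ) (A : ℝ), GD ν xm 1 c2 N g → A + N ≤ M →
    IT ν M N g A = 0 := by
  induction N with
  | zero => intro g A _ _; simp [IT]
  | succ N ih =>
    intro g A hg hA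
    have ha0 := am_nonneg hg
    have ha1 := am_le hg
    have ha2 : am ν g ^ 2 ≤ 1 := pow_le_one₀ ha0 ha1
    have hA' : A + am ν g ^ 2 + N ≤ M := by
      push_cast at hA
      linarith
    have hcase : A + am ν g ^ 2 ≤ M := by
      have : (0 : ℝ) ≤ N := Nat.cast_nonneg N
      linarith
    simp only [IT]
    rw [if_pos hcase]
    have : ∀ x, IT ν M N (sg g x) (A + am ν g ^ 2) = 0 := fun x => ih _ _ (hg.sec x) hA'
    simp only [this]
    simp

/-- Squares are integrable. -/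
lemma sq_int (hE : XM ν) {N : ℕ} {F : (Fin N → ℝ) → ℝ} (hF : LG N F) (b : ℝ) :
    Integrable (fun x => (F x - b) ^ 2) (PN ν N) := by
  have hFb : LG N fun x => F x - b := by
    have := hF.add (LG.const N (-b))
    simpa [sub_eq_add_neg] using this
  have h1 := LG.exp_int hE hFb
  have h2 := LG.exp_int hE (LG.smul' hFb (-1))
  refine ((h1.add h2).const_mul 2).mono' ((hFb.1).pow_const 2).aestronglyMeasurable
    (Filter.Eventually.of_forall fun x => ?_)
  rw [Real.norm_eq_abs, abs_of_nonneg (sq_nonneg _)]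
  have h3 := Real.quadratic_le_exp_of_nonneg (abs_nonneg (F x - b))
  have h4 : Real.exp |F x - b| ≤ Real.exp (F x - b) + Real.exp (-1 * (F x - b)) := by
    rcases abs_cases (F x - b) with h | h
    · rw [h.1]
      have := Real.exp_pos (-1 * (F x - b))
      linarith
    · rw [h.1]
      have := Real.exp_pos (F x - b)
      have e : -(F x - b) = -1 * (F x - b) := by ring
      rw [e]
      linarith
  have h5 : |F x - b| ^ 2 = (F x - b) ^ 2 := sq_abs _
  have h6 := abs_nonneg (F x - b)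
  show (F x - b) ^ 2 ≤ 2 * (Real.exp (F x - b) + Real.exp (-1 * (F x - b)))
  nlinarith

/-- The variance is at most a constant times the energy. -/
theorem var_le_IS (hν : FM ν) (hE : XM ν) {φ : ℝ → ℝ} (hφ0 : ∀ t, 0 ≤ φ t) (hφ1 : Integrable φ ν)
    (hφ2 : Integrable (fun t => φ t ^ 2) ν) {xm c2 M : ℝ} {N : ℕ} {F : (Fin N → ℝ) → ℝ} {g : Fin N → (Fin N → ℝ) → ℝ}
    (hF : LG N F) (hg : GD ν xm 1 c2 N g) (hM : (N : ℝ) ≤ M) (hO : Osc ν φ N g F) :
    ∫ x, (F x - ∫ y, F y ∂(PN ν N)) ^ 2 ∂(PN ν N) ≤ ((∫ t, φ t ∂ν) ^ 2 * ∫ t, φ t ^ 2 ∂ν) * IS ν M N g 0 := by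
  obtain ⟨b, hb⟩ : ∃ b, b = ∫ y, F y ∂(PN ν N) := ⟨_, rfl⟩
  have hIT : IT ν M N g 0 = 0 := IT_zero N g 0 hg (by linarith)
  have hM0 : (0 : ℝ) ≤ M := (Nat.cast_nonneg N).trans hM
  have h1 : ∀ T : ℕ, ∫ x, min ((F x - b) ^ 2) (T : ℝ) ∂(PN ν N) ≤ ((∫ t, φ t ∂ν) ^ 2 * ∫ t, φ t ^ 2 ∂ν) * IS ν M N g 0 := by
    intro T
    have h2 := fluct (M := M) hν hφ0 hφ1 hφ2 N F g 0 b (T : ℝ) hF hg (Nat.cast_nonneg T) hM0 hO
    rw [hIT, ← hb] at h2
    simpa using h2
  have hsq := sq_int hE hF b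
  have h3 : Filter.Tendsto (fun T : ℕ => ∫ x, min ((F x - b) ^ 2) (T : ℝ) ∂(PN ν N)) Filter.atTop
      (nhds (∫ x, (F x - b) ^ 2 ∂(PN ν N))) := by
    refine tendsto_integral_of_dominated_convergence (fun x => (F x - b) ^ 2) (fun T => ?_) hsq (fun T => ?_) ?_
    · exact (((hF.1.sub_const b).pow_const 2).min measurable_const).aestronglyMeasurable
    · refine Filter.Eventually.of_forall fun x => ?_
      rw [Real.norm_eq_abs, abs_of_nonneg (le_min (sq_nonneg _) (Nat.cast_nonneg T))]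
      exact min_le_left _ _
    · refine Filter.Eventually.of_forall fun x => ?_
      obtain ⟨n, hn⟩ := exists_nat_ge ((F x - b) ^ 2)
      refine tendsto_const_nhds.congr' ?_
      filter_upwards [Filter.eventually_ge_atTop n] with T hT
      rw [min_eq_left]
      exact hn.trans (by exact_mod_cast hT)
  rw [← hb]
  exact le_of_tendsto' h3 h1

/-- VARIANCE LUCK: the exponential moments of `F` are at least `exp (θ E F + c θ ^ 2 Var F)`. -/
theorem varluck (hν : FM ν) (hE : XM ν) {xm xp c2 : ℝ} (hx : xm < xp) (hq0 : 0 < ν.real (Ici xp)) (hc2 : 0 < c2)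
    {φ : ℝ → ℝ} (hφ0 : ∀ t, 0 ≤ φ t) (hφ1 : Integrable φ ν) (hφ2 : Integrable (fun t => φ t ^ 2) ν) :
    ∃ c : ℝ, 0 < c ∧ ∀ (N : ℕ) (F : (Fin N → ℝ) → ℝ) (g : Fin N → (Fin N → ℝ) → ℝ), LG N F → GD ν xm 1 c2 N g →
      Osc ν φ N g F → (∀ x y, F x + ∑ i, g i x * (y i - x i) ≤ F y) → ∀ θ : ℝ, 0 ≤ θ → θ ≤ 1 →
      θ * ∫ x, F x ∂(PN ν N) + c * θ ^ 2 * ∫ x, (F x - ∫ y, F y ∂(PN ν N)) ^ 2 ∂(PN ν N) ≤
        Real.log (∫ x, Real.exp (θ * F x) ∂(PN ν N)) := by
  obtain ⟨Q, hQ⟩ : ∃ Q, Q = ν.real (Iic xm) * (1 + ν.real (Iic xm) / ν.real (Ici xp)) := ⟨_, rfl⟩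
  have hQ0 : 0 ≤ Q := by
    rw [hQ]
    have : 0 ≤ ν.real (Iic xm) := measureReal_nonneg
    positivity
  obtain ⟨cp, hcp⟩ : ∃ cp, cp = (xp - xm) * c2 := ⟨_, rfl⟩
  have hcp0 : 0 < cp := by rw [hcp]; exact mul_pos (by linarith) hc2
  obtain ⟨κ, hκ⟩ : ∃ κ, κ = min (1 / 2) (cp / (2 * (Q + 1))) := ⟨_, rfl⟩
  have hκ0 : 0 < κ := by rw [hκ]; exact lt_min (by norm_num) (by positivity)
  have hκ1 : κ ≤ 1 / 2 := by rw [hκ]; exact min_le_left _ _
  have hκ2 : κ * Q ≤ cp / 2 := by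
    have h1 : κ ≤ cp / (2 * (Q + 1)) := by rw [hκ]; exact min_le_right _ _
    rw [le_div_iff₀ (by positivity)] at h1
    nlinarith
  obtain ⟨Cv, hCv⟩ : ∃ Cv, Cv = (∫ t, φ t ∂ν) ^ 2 * ∫ t, φ t ^ 2 ∂ν := ⟨_, rfl⟩
  have hCv0 : 0 ≤ Cv := by
    rw [hCv]
    exact mul_nonneg (sq_nonneg _) (integral_nonneg fun t => sq_nonneg _)
  refine ⟨κ * cp / (2 * (Cv + 1)), by positivity, fun N F g hF hg hO hconv θ hθ0 hθ1 => ?_⟩
  rw [hQ, hcp] at hκ2
  have h1 := varkey (M := (N : ℝ)) hν hE hx hq0 hκ0.le hκ1 hκ2 hθ0 hθ1 N F F g 0 hF hF hg (by linarith) hconv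
  have h2 := var_le_IS (M := (N : ℝ)) hν hE hφ0 hφ1 hφ2 hF hg le_rfl hO
  rw [← hCv] at h2
  rw [← hcp] at h1
  obtain ⟨I, hI⟩ : ∃ I, I = IS ν (N : ℝ) N g 0 := ⟨_, rfl⟩
  have hI0 : 0 ≤ I := by rw [hI]; exact IS_nonneg N _ _
  obtain ⟨v, hv⟩ : ∃ v, v = ∫ x, (F x - ∫ y, F y ∂(PN ν N)) ^ 2 ∂(PN ν N) := ⟨_, rfl⟩
  rw [← hI] at h1 h2
  rw [← hv] at h2 ⊢
  have h3 : κ * cp / (2 * (Cv + 1)) * θ ^ 2 * v ≤ κ * cp / 2 * θ ^ 2 * I := by
    have h4 : v ≤ (Cv + 1) * I := by nlinarith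
    have h5 : κ * cp / (2 * (Cv + 1)) * θ ^ 2 * v ≤ κ * cp / (2 * (Cv + 1)) * θ ^ 2 * ((Cv + 1) * I) :=
      mul_le_mul_of_nonneg_left h4 (by positivity)
    refine h5.trans_eq ?_
    field_simp
  linarith

end

end Pool.Agent.W_7d29a1_h18
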