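import Pool.Agent.W_7d29a1_h4g.LAinst
import Pool.Agent.W_7d29a1_h18.VarA

/-!
(T1) VARIANCE LUCK for logarithms of sums of path weights (MP_7d29a1_pr, scaling law), all nondegenerate laws with exponential
moments: `θ E F + c θ ^ 2 Var F ≤ log E exp (θ F)`, `0 ≤ θ ≤ 1`. (helper18)
-/

namespace Pool.Agent.W_7d29a1_h18

open MeasureTheory Pool.Agent.W_7d29a1_F Pool.Agent.W_7d29a1_h4g

variable {μ : Measure ℝ} [IsProbabilityMeasure μ]

/-- The gradients have the property `GD` of helper42. -/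
theorem exists_GD (hEM : Pool.Agent.W_7d29a1_h47.EM μ) {xm : ℝ} (hm : 0 < μ.real (Set.Iic xm)) : ∃ c2 : ℝ, 0 < c2 ∧
    ∀ (n N : ℕ) (a : Fin N → ℝ) (A : Fin N → Finset (Fin n)), (∀ k, 0 ≤ a k) → (0 < ∑ k, a k) →
      Pool.Agent.W_7d29a1_h42.GD μ xm 1 c2 n (gs a A) := by
  classical
  have hexpint : Integrable (fun t : ℝ => Real.exp t) μ := by
    refine (hEM 1).mono' Real.measurable_exp.aestronglyMeasurable (Filter.Eventually.of_forall fun t => ?_)
    rw [Real.norm_eq_abs, abs_of_pos (Real.exp_pos _)]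
    refine Real.exp_le_exp.2 ?_
    have := le_abs_self t
    linarith
  obtain ⟨M, hM⟩ : ∃ M, M = ∫ t, Real.exp t ∂μ := ⟨_, rfl⟩
  have hM0 : 0 ≤ M := by
    rw [hM]
    exact integral_nonneg fun t => (Real.exp_pos t).le
  have hI1 : ∀ t' : ℝ, Integrable (fun t : ℝ => 1 + Real.exp (t - t')) μ := by
    intro t'
    refine (integrable_const (1 : ℝ)).add ((hexpint.const_mul (Real.exp (-t'))).congr
      (Filter.Eventually.of_forall fun t => ?_))
    show Real.exp (-t') * Real.exp t = Real.exp (t - t')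
    rw [← Real.exp_add]
    congr 1
    ring
  have hI2 : ∀ t' : ℝ, ∫ t, (1 + Real.exp (t - t')) ∂μ = 1 + M * Real.exp (-t') := by
    intro t'
    have e1 : ∀ t : ℝ, Real.exp (t - t') = Real.exp (-t') * Real.exp t := by
      intro t
      rw [← Real.exp_add]
      congr 1
      ring
    simp_rw [e1]
    rw [integral_add (integrable_const _) (hexpint.const_mul _), integral_const_mul, ← hM]
    simp
    ring
  obtain ⟨c2, hc2⟩ : ∃ c2, c2 = ∫ t in Set.Iic xm, (1 + M * Real.exp (-t))⁻¹ ∂μ := ⟨_, rfl⟩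
  have hinv0 : ∀ t : ℝ, 0 < (1 + M * Real.exp (-t))⁻¹ := by
    intro t
    have := Real.exp_pos (-t)
    positivity
  have hinv1 : ∀ t : ℝ, (1 + M * Real.exp (-t))⁻¹ ≤ 1 := by
    intro t
    have := Real.exp_pos (-t)
    refine inv_le_one_of_one_le₀ ?_
    nlinarith [mul_nonneg hM0 this.le]
  have hinvm : Measurable fun t : ℝ => (1 + M * Real.exp (-t))⁻¹ := by fun_prop
  have hinvi : Integrable (fun t : ℝ => (1 + M * Real.exp (-t))⁻¹) μ := by
    refine (integrable_const (1 : ℝ)).mono' hinvm.aestronglyMeasurable (Filter.Eventually.of_forall fun t => ?_)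
    rw [Real.norm_eq_abs, abs_of_pos (hinv0 t)]
    exact hinv1 t
  have hc20 : 0 < c2 := by
    rw [hc2]
    rw [setIntegral_pos_iff_support_of_nonneg_ae]
    · have : Function.support (fun t : ℝ => (1 + M * Real.exp (-t))⁻¹) = Set.univ := by
        ext t
        exact ⟨fun _ => Set.mem_univ _, fun _ => (hinv0 t).ne'⟩
      rw [this, Set.univ_inter]
      rw [Measure.real, ENNReal.toReal_pos_iff] at hm
      exact hm.1
    · exact Filter.Eventually.of_forall fun t => (hinv0 t).le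
    · exact hinvi.integrableOn
  refine ⟨c2, hc20, fun n N a A ha hs => ⟨fun i => measurable_gs i, fun i x => gs_nonneg ha _ _,
    fun i x => gs_le ha _ _, fun i x => ?_⟩⟩
  have h1 : ∀ t', ∫ t, gs a A i (Function.update x i t) ∂μ ≤ (1 + M * Real.exp (-t')) * gs a A i (Function.update x i t') := by
    intro t'
    rw [← hI2 t', ← integral_mul_const]
    exact integral_mono (gs_int ha i x) ((hI1 t').mul_const _) fun t => gs_har ha hs i x t t'
  have h2 : ∀ t', (1 + M * Real.exp (-t'))⁻¹ * ∫ t, gs a A i (Function.update x i t) ∂μ ≤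
      gs a A i (Function.update x i t') := by
    intro t'
    have h3 : 0 < 1 + M * Real.exp (-t') := by
      have := Real.exp_pos (-t')
      positivity
    rw [inv_mul_le_iff₀ h3]
    exact h1 t'
  rw [hc2, ← integral_mul_const]
  exact integral_mono (hinvi.integrableOn.mul_const _) (gs_int ha i x).integrableOn fun t' => h2 t'

/-- Variance luck on finitely many sites. -/
theorem var_LS (hEM : Pool.Agent.W_7d29a1_h47.EM μ) (hnd : Pool.Agent.W_7d29a1_h47.Nondeg μ) : ∃ c : ℝ, 0 < c ∧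
    ∀ (n N : ℕ) (a : Fin N → ℝ) (A : Fin N → Finset (Fin n)), (∀ k, 0 ≤ a k) → (0 < ∑ k, a k) →
      ∀ θ : ℝ, 0 ≤ θ → θ ≤ 1 →
      θ * ∫ x, LS a A x ∂(Measure.pi fun _ : Fin n => μ) +
        c * θ ^ 2 * ∫ x, (LS a A x - ∫ y, LS a A y ∂(Measure.pi fun _ : Fin n => μ)) ^ 2 ∂(Measure.pi fun _ : Fin n => μ) ≤
        Real.log (∫ x, Real.exp (θ * LS a A x) ∂(Measure.pi fun _ : Fin n => μ)) := by
  have hFM := FM_of hEM
  obtain ⟨xm, xp, hx, hm, hq⟩ := Pool.Agent.W_7d29a1_h47.exists_gap hnd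
  obtain ⟨c2, hc2, hGD⟩ := exists_GD hEM hm
  obtain ⟨φ, hφ0, hφ1, hφ2, hφ3⟩ := exists_phi hEM
  have hX : XM μ := fun t => hEM t
  obtain ⟨c, hc, h⟩ := varluck (ν := μ) hFM hX hx hq hc2 hφ0 hφ1 hφ2
  refine ⟨c, hc, fun n N a A ha hs θ hθ0 hθ1 => ?_⟩
  exact h n (LS a A) (gs a A) (LS_LG (A := A) ha hs) (hGD n N a A ha hs) (hφ3 n N a A ha hs) (LS_convex ha hs) θ hθ0 hθ1

/-- A sum of path weights is a function of finitely many independent variables. -/
theorem Poly_LS {S : Set Pt} {G : Env → ℝ} (hP : Poly S G) (hG : ∀ η, 0 < G η) : ∃ (n N : ℕ) (a : Fin N → ℝ)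
    (B : Fin N → Finset (Fin n)) (r : Env → (Fin n → ℝ)), (∀ k, 0 ≤ a k) ∧ (0 < ∑ k, a k) ∧ Measurable r ∧
    (law μ).map r = (Measure.pi fun _ : Fin n => μ) ∧ ∀ η, LS a B (r η) = Real.log (G η) := by
  classical
  obtain ⟨N, a, A, h1, h2, h3⟩ := hP
  obtain ⟨T, hT⟩ : ∃ T : Finset Pt, T = Finset.univ.biUnion A := ⟨_, rfl⟩
  have hAT : ∀ i, A i ⊆ T := fun i => by
    rw [hT]
    exact Finset.subset_biUnion_of_mem A (Finset.mem_univ i)
  obtain ⟨e⟩ : Nonempty (Fin (Fintype.card T) ≃ T) := ⟨(Fintype.equivFin T).symm⟩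
  obtain ⟨x, hxdef⟩ : ∃ x : Fin (Fintype.card T) → Pt, x = fun i => ((e i : T) : Pt) := ⟨_, rfl⟩
  have hx : Function.Injective x := by
    intro i j hij
    rw [hxdef] at hij
    exact e.injective (Subtype.ext hij)
  obtain ⟨r, hr⟩ : ∃ r : Env → (Fin (Fintype.card T) → ℝ), r = fun η i => η (x i) := ⟨_, rfl⟩
  have hrm : Measurable r := by
    rw [hr]
    exact measurable_pi_lambda _ fun i => measurable_pi_apply _
  have hmap : (law μ).map r = Measure.pi fun _ => μ := by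
    rw [hr]
    exact map_sites μ x hx
  obtain ⟨B, hB⟩ : ∃ B : Fin N → Finset (Fin (Fintype.card T)), B = fun k => Finset.univ.filter fun i => x i ∈ A k :=
    ⟨_, rfl⟩
  have hsum : ∀ (k : Fin N) (η : Env), ∑ i ∈ B k, r η i = ∑ p ∈ A k, η p := by
    intro k η
    rw [hr, hB]
    refine Finset.sum_bij (fun i _ => x i) (fun i hi => (Finset.mem_filter.1 hi).2) (fun i _ j _ hij => hx hij)
      (fun p hp => ?_) fun i _ => rfl
    have hpT := hAT k hp
    refine ⟨e.symm ⟨p, hpT⟩, ?_, ?_⟩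
    · rw [Finset.mem_filter]
      refine ⟨Finset.mem_univ _, ?_⟩
      rw [hxdef]
      simpa using hp
    · rw [hxdef]
      simp
  refine ⟨Fintype.card T, N, a, B, r, h1, ?_, hrm, hmap, fun η => ?_⟩
  · have h4 := hG 0
    rw [h3] at h4
    refine lt_of_le_of_ne (Finset.sum_nonneg fun k _ => h1 k) fun h5 => ?_
    have h6 := (Finset.sum_eq_zero_iff_of_nonneg fun k _ => h1 k).1 h5.symm
    refine h4.ne' (Finset.sum_eq_zero fun k hk => ?_)
    rw [h6 k hk, zero_mul]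
  · unfold LS
    rw [h3 η]
    congr 1
    exact Finset.sum_congr rfl fun k _ => by rw [hsum]

/-- All exponential moments of the logarithm of a sum of path weights are finite, and the square is integrable. -/
theorem Poly_int (hEM : Pool.Agent.W_7d29a1_h47.EM μ) {S : Set Pt} {G : Env → ℝ} (hP : Poly S G) (hG : ∀ η, 0 < G η) :
    (∀ t : ℝ, Integrable (fun η => Real.exp (t * Real.log (G η))) (law μ)) ∧
    ∀ b : ℝ, Integrable (fun η => (Real.log (G η) - b) ^ 2) (law μ) := by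
  obtain ⟨n, N, a, B, r, ha, hs, hrm, hmap, hF⟩ := Poly_LS (μ := μ) hP hG
  have hX : XM μ := fun t => hEM t
  have hLG := LS_LG (A := B) ha hs
  have mp : MeasurePreserving r (law μ) (Measure.pi fun _ : Fin n => μ) := ⟨hrm, hmap⟩
  refine ⟨fun t => ?_, fun b => ?_⟩
  · have h1 := mp.integrable_comp_of_integrable (LG.exp_int hX (LG.smul' hLG t))
    refine h1.congr (Filter.Eventually.of_forall fun η => ?_)
    show Real.exp (t * LS a B (r η)) = Real.exp (t * Real.log (G η))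
    rw [hF]
  · have h1 := mp.integrable_comp_of_integrable (sq_int hX hLG b)
    refine h1.congr (Filter.Eventually.of_forall fun η => ?_)
    show (LS a B (r η) - b) ^ 2 = (Real.log (G η) - b) ^ 2
    rw [hF]

/-- (T1) VARIANCE LUCK. -/
theorem var_luck (hEM : Pool.Agent.W_7d29a1_h47.EM μ) (hnd : Pool.Agent.W_7d29a1_h47.Nondeg μ) : ∃ c : ℝ, 0 < c ∧
    ∀ (S : Set Pt) (G : Env → ℝ), Poly S G → (∀ η, 0 < G η) → ∀ θ : ℝ, 0 ≤ θ → θ ≤ 1 →
      θ * ∫ η, Real.log (G η) ∂(law μ) +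
        c * θ ^ 2 * ∫ η, (Real.log (G η) - ∫ ξ, Real.log (G ξ) ∂(law μ)) ^ 2 ∂(law μ) ≤
        Real.log (∫ η, Real.exp (θ * Real.log (G η)) ∂(law μ)) := by
  obtain ⟨c, hc, h⟩ := var_LS hEM hnd
  refine ⟨c, hc, fun S G hP hG θ hθ0 hθ1 => ?_⟩
  obtain ⟨n, N, a, B, r, ha, hs, hrm, hmap, hF⟩ := Poly_LS (μ := μ) hP hG
  have h1 := h n N a B ha hs θ hθ0 hθ1
  have hm := measurable_LS a B
  have tr : ∀ φ : ℝ → ℝ, Measurable φ → ∫ x, φ (LS a B x) ∂(Measure.pi fun _ : Fin n => μ) =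
      ∫ η, φ (Real.log (G η)) ∂(law μ) := by
    intro φ hφ
    have hφm : Measurable fun x => φ (LS a B x) := hφ.comp hm
    rw [← hmap, integral_map hrm.aemeasurable hφm.aestronglyMeasurable]
    exact integral_congr_ae (Filter.Eventually.of_forall fun η => by
      show φ (LS a B (r η)) = _
      rw [hF])
  have e1 : ∫ x, LS a B x ∂(Measure.pi fun _ : Fin n => μ) = ∫ η, Real.log (G η) ∂(law μ) :=
    tr (fun t => t) measurable_id
  rw [e1] at h1
  have e2 := tr (fun t => (t - ∫ ξ, Real.log (G ξ) ∂(law μ)) ^ 2) ((measurable_id.sub_const _).pow_const 2)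
  have e3 := tr (fun t => Real.exp (θ * t)) (Real.measurable_exp.comp (measurable_id.const_mul θ))
  rw [e2, e3] at h1
  exact h1

/-- The variance is small if the mean is not too small and an exponential moment is not too large. -/
theorem var_le_of_exp (hEM : Pool.Agent.W_7d29a1_h47.EM μ) (hnd : Pool.Agent.W_7d29a1_h47.Nondeg μ) : ∃ c : ℝ, 0 < c ∧
    ∀ (S : Set Pt) (G : Env → ℝ), Poly S G → (∀ η, 0 < G η) → ∀ θ : ℝ, 0 ≤ θ → θ ≤ 1 → ∀ A B : ℝ,
      ∫ η, Real.exp (θ * Real.log (G η)) ∂(law μ) ≤ Real.exp A → -B ≤ ∫ η, Real.log (G η) ∂(law μ) →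
      c * θ ^ 2 * ∫ η, (Real.log (G η) - ∫ ξ, Real.log (G ξ) ∂(law μ)) ^ 2 ∂(law μ) ≤ A + θ * B := by
  obtain ⟨c, hc, h⟩ := var_luck hEM hnd
  refine ⟨c, hc, fun S G hP hG θ hθ0 hθ1 A B hA hB => ?_⟩
  have h1 := h S G hP hG θ hθ0 hθ1
  have h2 : Real.log (∫ η, Real.exp (θ * Real.log (G η)) ∂(law μ)) ≤ A := by
    have h3 := Real.log_le_log (integral_exp_pos ((Poly_int hEM hP hG).1 θ)) hA
    rwa [Real.log_exp] at h3
  have h4 := mul_le_mul_of_nonneg_left hB hθ0
  linarith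

end Pool.Agent.W_7d29a1_h18
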